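import Mathlib

/-! The forcing: conditions, the copying operation and simultaneous limits. -/

set_option linter.unusedSectionVars false

namespace Pool.Agent.H926Z.KH

/-- properties of the order `ω₁` -/
class Om1 (O : Type) [LinearOrder O] : Prop where
  cI : ∀ a : O, (Set.Iic a).Countable
  bd : ∀ s : Set O, s.Countable → ∃ b, ∀ a ∈ s, a < b

abbrev CN (O : Type) := List Bool → O → Prop

def Up (a : Set (List Bool)) : Prop := ∀ t ∈ a, ∀ t', t <+: t' → t' ∈ a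

variable {O K : Type} [LinearOrder O] [OrderBot O] [LinearOrder K]

def Cap (S : O → ℕ → CN O) (σ : CN O) (γ : O) : Prop :=
  ∀ s : List Bool, ∃ t, s <+: t ∧ ∃ β, β ≤ γ ∧ ∃ n, ∀ t', t <+: t' → ∀ ξ, ξ < γ →
    (σ t' ξ ↔ S β n t' ξ)

def Good (δ : O) (S : O → ℕ → CN O) (σ : CN O) : Prop :=
  (∀ t ξ, σ t ξ → ξ < δ) ∧ ∀ γ, γ ≤ δ → Cap S σ γ

def Nrm (S : O → ℕ → CN O) : Prop := ∀ β n t ξ, S β n t ξ → ξ < β

theorem good_zero {S : O → ℕ → CN O} (hS : Nrm S) (δ : O) : Good δ S (fun _ _ => False) :=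
  ⟨fun _ _ h => h.elim, fun _ _ s => ⟨s, List.prefix_rfl, ⊥, bot_le, 0, fun _ _ _ _ =>
    ⟨fun h => h.elim, fun h => absurd (hS _ _ _ _ h) not_lt_bot⟩⟩⟩

theorem Good.mono {δ δ' : O} {S S' : O → ℕ → CN O} {σ : CN O} (h : Good δ S σ) (hS : Nrm S)
    (h1 : δ ≤ δ') (h2 : ∀ β, β ≤ δ → S' β = S β) : Good δ' S' σ := by
  refine ⟨fun t ξ hh => (h.1 t ξ hh).trans_le h1, fun γ _ s => ?_⟩
  rcases le_total γ δ with h3 | h3
  · obtain ⟨t, ht, β, hβ, n, hn⟩ := h.2 γ h3 s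
    exact ⟨t, ht, β, hβ, n, by rw [h2 β (hβ.trans h3)]; exact hn⟩
  · obtain ⟨t, ht, β, hβ, n, hn⟩ := h.2 δ le_rfl s
    refine ⟨t, ht, β, hβ.trans h3, n, fun t' ht' ξ _ => ?_⟩
    rw [h2 β hβ]
    exact ⟨fun hh => (hn t' ht' ξ (h.1 _ _ hh)).1 hh,
      fun hh => (hn t' ht' ξ ((hS _ _ _ _ hh).trans_le hβ)).2 hh⟩

open Classical in
theorem Good.mix {δ : O} {S : O → ℕ → CN O} {σ σ' : CN O} (h : Good δ S σ) (h' : Good δ S σ')
    {a : Set (List Bool)} (ha : Up a) : Good δ S (fun t => if t ∈ a then σ t else σ' t) := by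
  refine ⟨fun t ξ hh => ?_, fun γ hγ s => ?_⟩
  · by_cases ht : t ∈ a
    · simp only [if_pos ht] at hh; exact h.1 _ _ hh
    · simp only [if_neg ht] at hh; exact h'.1 _ _ hh
  · by_cases hs : ∃ u, s <+: u ∧ u ∈ a
    · obtain ⟨u, hu, hua⟩ := hs
      obtain ⟨t, ht, β, hβ, n, hn⟩ := h.2 γ hγ u
      refine ⟨t, hu.trans ht, β, hβ, n, fun t' ht' ξ hξ => ?_⟩
      simp only [if_pos (ha u hua t' (ht.trans ht'))]
      exact hn t' ht' ξ hξ
    · obtain ⟨t, ht, β, hβ, n, hn⟩ := h'.2 γ hγ s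
      refine ⟨t, ht, β, hβ, n, fun t' ht' ξ hξ => ?_⟩
      have : t' ∉ a := fun hh => hs ⟨t', ht.trans ht', hh⟩
      simp only [if_neg this]
      exact hn t' ht' ξ hξ

/-- conditions -/
structure Cond (O K : Type) [LinearOrder O] [OrderBot O] [LinearOrder K] where
  δ : O
  S : O → ℕ → CN O
  A : Set K
  F : K → CN O
  g : K → O → K
  hS : Nrm S
  cA : A.Countable
  good : ∀ i, Good δ S (F i)
  gle : ∀ i ξ, g i ξ ≤ i

def Stem (q p : Cond O K) : Prop := p.δ ≤ q.δ ∧ ∀ β, β ≤ p.δ → q.S β = p.S β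

def Col (q p : Cond O K) (i : K) : Prop :=
  i ∈ p.A → i ∈ q.A ∧ ∀ ξ, ξ < p.δ → (∀ t, q.F i t ξ ↔ p.F i t ξ) ∧ q.g i ξ = p.g i ξ

theorem Stem.trans {p q r : Cond O K} (h : Stem r q) (h' : Stem q p) : Stem r p :=
  ⟨h'.1.trans h.1, fun β hβ => (h.2 β (hβ.trans h'.1)).trans (h'.2 β hβ)⟩

theorem Col.trans {p q r : Cond O K} {i : K} (h : Col r q i) (h' : Col q p i) (hd : p.δ ≤ q.δ) :
    Col r p i := fun hi =>
  ⟨(h (h' hi).1).1, fun ξ hξ => ⟨fun t => (((h (h' hi).1).2 ξ (hξ.trans_le hd)).1 t).trans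
    (((h' hi).2 ξ hξ).1 t), ((h (h' hi).1).2 ξ (hξ.trans_le hd)).2.trans ((h' hi).2 ξ hξ).2⟩⟩

instance : Preorder (Cond O K) where
  le q p := Stem q p ∧ ∀ i, Col q p i
  le_refl _ := ⟨⟨le_rfl, fun _ _ => rfl⟩, fun _ h => ⟨h, fun _ _ => ⟨fun _ => Iff.rfl, rfl⟩⟩⟩
  le_trans _ _ _ h h' := ⟨h.1.trans h'.1, fun i => (h.2 i).trans (h'.2 i) h'.1.1⟩

instance : OrderTop (Cond O K) where
  top := ⟨⊥, fun _ _ _ _ => False, ∅, fun _ _ _ => False, fun i _ => i, fun _ _ _ _ h => h.elim,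
    Set.countable_empty, fun _ => good_zero (fun _ _ _ _ h => h.elim) _, fun _ _ => le_rfl⟩
  le_top p := ⟨⟨bot_le, fun β hβ => by
    funext n t ξ
    exact propext ⟨fun h => absurd ((p.hS _ _ _ _ h).trans_le hβ) not_lt_bot, fun h => h.elim⟩⟩,
    fun _ h => h.elim⟩

theorem le_sub {p q : Cond O K} (h : q ≤ p) : p.A ⊆ q.A := fun i hi => (h.2 i hi).1

/-- the part below `α` extends -/
def LeA (α : K) (q p : Cond O K) : Prop := Stem q p ∧ ∀ i, i < α → Col q p i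

/-- same part below `α` -/
def SameA (α : K) (q p : Cond O K) : Prop :=
  q.δ = p.δ ∧ q.S = p.S ∧ ∀ i, i < α → (i ∈ q.A ↔ i ∈ p.A) ∧ q.F i = p.F i ∧ q.g i = p.g i

def Eqv (α : K) (a : Set (List Bool)) (q p : Cond O K) : Prop :=
  SameA α q p ∧ q.A = p.A ∧ ∀ i ∈ q.A, ∀ t ∈ a, q.F i t = p.F i t

variable {α : K} {a b : Set (List Bool)} {p q r w : Cond O K}

theorem SameA.refl (α : K) (p : Cond O K) : SameA α p p :=
  ⟨rfl, rfl, fun _ _ => ⟨Iff.rfl, rfl, rfl⟩⟩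

theorem SameA.symm (h : SameA α p q) : SameA α q p :=
  ⟨h.1.symm, h.2.1.symm, fun i hi => ⟨(h.2.2 i hi).1.symm, (h.2.2 i hi).2.1.symm,
    (h.2.2 i hi).2.2.symm⟩⟩

theorem SameA.trans (h : SameA α p q) (h' : SameA α q r) : SameA α p r :=
  ⟨h.1.trans h'.1, h.2.1.trans h'.2.1, fun i hi => ⟨(h.2.2 i hi).1.trans (h'.2.2 i hi).1,
    (h.2.2 i hi).2.1.trans (h'.2.2 i hi).2.1, (h.2.2 i hi).2.2.trans (h'.2.2 i hi).2.2⟩⟩

theorem SameA.leA (h : SameA α p q) : LeA α p q :=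
  ⟨⟨h.1.ge, fun _ _ => by rw [h.2.1]⟩, fun i hi hq => ⟨(h.2.2 i hi).1.2 hq, fun ξ _ =>
    ⟨fun t => by rw [(h.2.2 i hi).2.1], by rw [(h.2.2 i hi).2.2]⟩⟩⟩

theorem LeA.of_le (h : p ≤ q) : LeA α p q := ⟨h.1, fun i _ => h.2 i⟩

theorem LeA.trans (h : LeA α p q) (h' : LeA α q r) : LeA α p r :=
  ⟨h.1.trans h'.1, fun i hi => (h.2 i hi).trans (h'.2 i hi) h'.1.1⟩

theorem LeA.le (h : LeA α p q) (h' : q.A ⊆ Set.Iio α) : p ≤ q :=
  ⟨h.1, fun i hi => h.2 i (h' hi) hi⟩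

theorem Eqv.refl (α : K) (a : Set (List Bool)) (p : Cond O K) : Eqv α a p p :=
  ⟨SameA.refl _ _, rfl, fun _ _ _ _ => rfl⟩

theorem Eqv.symm (h : Eqv α a p q) : Eqv α a q p :=
  ⟨h.1.symm, h.2.1.symm, fun i hi t ht => (h.2.2 i (h.2.1 ▸ hi) t ht).symm⟩

theorem Eqv.trans (h : Eqv α a p q) (h' : Eqv α a q r) : Eqv α a p r :=
  ⟨h.1.trans h'.1, h.2.1.trans h'.2.1, fun i hi t ht =>
    (h.2.2 i hi t ht).trans (h'.2.2 i (h.2.1 ▸ hi) t ht)⟩

theorem Eqv.mono (h : Eqv α a p q) (hb : b ⊆ a) : Eqv α b p q :=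
  ⟨h.1, h.2.1, fun i hi t ht => h.2.2 i hi t (hb ht)⟩

open Classical in
/-- copy `w` onto `r`: below `α`, on new columns, and on the part `a` -/
noncomputable def cp (α : K) (a : Set (List Bool)) (w r : Cond O K) (ha : Up a) (h : Stem w r) :
    Cond O K where
  δ := w.δ
  S := w.S
  A := w.A ∪ r.A
  F := fun i t => @ite _ (t ∈ {t | (i < α ∨ i ∉ r.A) ∨ t ∈ a}) (propDecidable _) (w.F i t) (r.F i t)
  g := fun i => if i < α ∨ i ∉ r.A then w.g i else r.g i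
  hS := w.hS
  cA := w.cA.union r.cA
  good := fun i => (w.good i).mix ((r.good i).mono r.hS h.1 h.2)
    (a := {t | (i < α ∨ i ∉ r.A) ∨ t ∈ a}) fun t ht t' h' =>
    Or.imp id (fun hh => ha t hh t' h') ht
  gle := fun i ξ => by
    split_ifs
    · exact w.gle i ξ
    · exact r.gle i ξ

variable {ha : Up a} {h : Stem w r}

theorem cp_F1 {i : K} {t : List Bool} (hi : (i < α ∨ i ∉ r.A) ∨ t ∈ a) :
    (cp α a w r ha h).F i t = w.F i t := if_pos hi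

theorem cp_F2 {i : K} {t : List Bool} (hi : ¬ ((i < α ∨ i ∉ r.A) ∨ t ∈ a)) :
    (cp α a w r ha h).F i t = r.F i t := if_neg hi

theorem cp_g1 {i : K} (hi : i < α ∨ i ∉ r.A) : (cp α a w r ha h).g i = w.g i := if_pos hi

theorem cp_g2 {i : K} (hi : ¬ (i < α ∨ i ∉ r.A)) : (cp α a w r ha h).g i = r.g i := if_neg hi

theorem cp_same (h1 : LeA α w r) : SameA α (cp α a w r ha h) w :=
  ⟨rfl, rfl, fun i hi => ⟨⟨fun hh => hh.elim id fun hh => (h1.2 i hi hh).1, Or.inl⟩,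
    funext fun _ => cp_F1 (Or.inl (Or.inl hi)), cp_g1 (Or.inl hi)⟩⟩

theorem cp_le (h1 : LeA α w r)
    (h2 : ∀ i ∈ r.A, ∀ t ∈ a, ∀ ξ, ξ < r.δ → (w.F i t ξ ↔ r.F i t ξ)) : cp α a w r ha h ≤ r := by
  refine ⟨h, fun i hi => ⟨Or.inr hi, fun ξ hξ => ⟨fun t => ?_, ?_⟩⟩⟩
  · by_cases hc : (i < α ∨ i ∉ r.A) ∨ t ∈ a
    · rw [cp_F1 hc]
      rcases hc with (hc | hc) | hc
      · exact ((h1.2 i hc hi).2 ξ hξ).1 t
      · exact absurd hi hc
      · exact h2 i hi t hc ξ hξ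
    · rw [cp_F2 hc]
  · by_cases hc : i < α ∨ i ∉ r.A
    · rw [cp_g1 hc]
      rcases hc with hc | hc
      · exact ((h1.2 i hc hi).2 ξ hξ).2
      · exact absurd hi hc
    · rw [cp_g2 hc]

theorem cp_eqv (h1 : LeA α w r) (h2 : r.A ⊆ w.A) : Eqv α a (cp α a w r ha h) w :=
  ⟨cp_same h1, Set.union_eq_left.2 h2, fun _ _ _ ht => cp_F1 (Or.inr ht)⟩

theorem up_empty : Up ∅ := fun _ h => h.elim

/-- amalgamation -/
theorem amalg (h1 : LeA α w r) : ∃ c, c ≤ r ∧ SameA α c w ∧ c.A = w.A ∪ r.A :=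
  ⟨cp α ∅ w r up_empty h1.1, cp_le h1 fun _ _ _ h => h.elim, cp_same h1, rfl⟩

/-- copying an extension -/
theorem copy (ha : Up a) (h1 : Eqv α a q r) (h2 : w ≤ q) : ∃ c, c ≤ r ∧ Eqv α a c w := by
  have h3 : LeA α w r := (LeA.of_le h2).trans h1.1.leA
  refine ⟨cp α a w r ha h3.1, cp_le h3 fun i hi t ht ξ hξ => ?_, cp_eqv h3 (h1.2.1 ▸ le_sub h2)⟩
  have hi' : i ∈ q.A := h1.2.1 ▸ hi
  rw [← h1.2.2 i hi' t ht]
  exact ((h2.2 i hi').2 ξ (h1.1.1 ▸ hξ)).1 t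

/-- mixing -/
theorem mixing (ha : Up a) (h1 : Eqv α (a ∩ b) w r) (h2 : w ≤ q) (h3 : r ≤ q) :
    ∃ c, c ≤ q ∧ Eqv α a c w ∧ Eqv α b c r := by
  have h4 := h1.1.leA
  refine ⟨cp α a w r ha h4.1, ⟨h2.1, fun i hi => ⟨Or.inl (le_sub h2 hi), fun ξ hξ =>
    ⟨fun t => ?_, ?_⟩⟩⟩, cp_eqv h4 h1.2.1.ge, (cp_same h4).trans h1.1,
    Set.union_eq_right.2 h1.2.1.le, fun i hi t ht => ?_⟩
  · by_cases hc : (i < α ∨ i ∉ r.A) ∨ t ∈ a
    · rw [cp_F1 hc]; exact ((h2.2 i hi).2 ξ hξ).1 t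
    · rw [cp_F2 hc]; exact ((h3.2 i hi).2 ξ hξ).1 t
  · by_cases hc : i < α ∨ i ∉ r.A
    · rw [cp_g1 hc]; exact ((h2.2 i hi).2 ξ hξ).2
    · rw [cp_g2 hc]; exact ((h3.2 i hi).2 ξ hξ).2
  · have hi' : i ∈ w.A := hi.elim id fun hh => h1.2.1 ▸ hh
    by_cases hc : (i < α ∨ i ∉ r.A) ∨ t ∈ a
    · rw [cp_F1 hc]
      rcases hc with (hc | hc) | hc
      · rw [(h1.1.2.2 i hc).2.1]
      · exact absurd (h1.2.1 ▸ hi') hc
      · exact h1.2.2 i hi' t ⟨hc, ht⟩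
    · rw [cp_F2 hc]

/-- simultaneous lower bounds -/
theorem exists_limit [Om1 O] {I : Type} (x0 : I) (R : ℕ → I → Cond O K)
    (hanti : ∀ x, Antitone fun n => R n x) (hδ : ∀ n x, (R n x).δ = (R n x0).δ)
    (hS : ∀ n x, (R n x).S = (R n x0).S) (I0 : Set I) (hI0 : I0.Countable)
    (hcap : ∀ x s, ∃ t, s <+: t ∧ ∃ y ∈ I0, ∀ n, (R n x).A = (R n y).A ∧
      ∀ i ∈ (R n x).A, ∀ t', t <+: t' → (R n x).F i t' = (R n y).F i t') :
    ∃ L : I → Cond O K, (∀ n x, L x ≤ R n x) ∧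
      ∀ α x y, (∀ n, SameA α (R n x) (R n y)) → SameA α (L x) (L y) := by
  classical
  obtain ⟨lam, hlam⟩ := Om1.bd (Set.range fun n => (R n x0).δ) (Set.countable_range _)
  have hlam' : ∀ n x, (R n x).δ < lam := fun n x => hδ n x ▸ hlam _ ⟨n, rfl⟩
  let LF : I → K → CN O := fun x i t ξ => ∃ n, i ∈ (R n x).A ∧ (R n x).F i t ξ
  let Lg : I → K → O → K := fun x i ξ =>
    (R (Classical.epsilon fun n => i ∈ (R n x).A ∧ ξ < (R n x).δ) x).g i ξ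
  have hX : (insert (fun _ _ => False)
      (⋃ y ∈ I0, ⋃ n, LF y '' (R n y).A) : Set (CN O)).Countable :=
    (hI0.biUnion fun y _ => Set.countable_iUnion fun n => (R n y).cA.image _).insert _
  obtain ⟨en, hen⟩ := hX.exists_eq_range (Set.insert_nonempty _ _)
  let LS : O → ℕ → CN O := fun β => if ∃ n, β ≤ (R n x0).δ then
    (R (Classical.epsilon fun n => β ≤ (R n x0).δ) x0).S β else en
  have hLS : ∀ n x β, β ≤ (R n x).δ → LS β = (R n x).S β := by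
    intro n x β hβ
    have h1 : ∃ n, β ≤ (R n x0).δ := ⟨n, hδ n x ▸ hβ⟩
    have h2 := Classical.epsilon_spec h1
    simp only [LS, if_pos h1]
    rw [hS n x, ← (hanti x0 (le_max_left _ n)).1.2 β h2,
      (hanti x0 (le_max_right _ n)).1.2 β (hδ n x ▸ hβ)]
  have hN : Nrm LS := by
    intro β n t ξ hh
    by_cases h1 : ∃ n, β ≤ (R n x0).δ
    · obtain ⟨m, hm⟩ := h1
      rw [hLS m x0 β hm] at hh
      exact (R m x0).hS _ _ _ _ hh
    · simp only [LS, if_neg h1] at hh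
      have : en n ∈ Set.range en := ⟨n, rfl⟩
      rw [← hen] at this
      rcases this with e | e
      · rw [e] at hh; exact hh.elim
      · simp only [Set.mem_iUnion] at e
        obtain ⟨y, -, m, i, -, e⟩ := e
        rw [← e] at hh
        obtain ⟨k, -, hk⟩ := hh
        exact (((R k y).good i).1 _ _ hk).trans (lt_of_not_ge fun h2 => h1 ⟨k, hδ k y ▸ h2⟩)
  have hLF : ∀ n x i, i ∈ (R n x).A → ∀ ξ, ξ < (R n x).δ → ∀ t,
      (LF x i t ξ ↔ (R n x).F i t ξ) := by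
    intro n x i hi ξ hξ t
    refine ⟨fun ⟨m, h1, h2⟩ => ?_, fun h => ⟨n, hi, h⟩⟩
    exact ((((hanti x (le_max_left n m)).2 i hi).2 ξ hξ).1 t).1
      (((((hanti x (le_max_right n m)).2 i h1).2 ξ (((R m x).good i).1 _ _ h2)).1 t).2 h2)
  have hG : ∀ x i, Good lam LS (LF x i) := by
    intro x i
    by_cases hi : ∃ m, i ∈ (R m x).A
    · obtain ⟨m, hm⟩ := hi
      refine ⟨fun t ξ ⟨k, _, hk⟩ => (((R k x).good i).1 _ _ hk).trans (hlam' k x), fun γ _ s => ?_⟩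
      by_cases h1 : ∃ n, γ ≤ (R n x0).δ
      · obtain ⟨n, hn⟩ := h1
        have h2 : γ ≤ (R (max n m) x).δ := (hδ n x ▸ hn).trans (hanti x (le_max_left n m)).1.1
        obtain ⟨t, ht, β, hβ, k, hk⟩ := ((R (max n m) x).good i).2 γ h2 s
        refine ⟨t, ht, β, hβ, k, fun t' ht' ξ hξ => ?_⟩
        rw [hLS _ x β (hβ.trans h2), ← hk t' ht' ξ hξ]
        exact hLF _ x i (le_sub (hanti x (le_max_right n m)) hm) ξ (hξ.trans_le h2) t'
      · obtain ⟨t, ht, y, hy, h2⟩ := hcap x s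
        have h3 : LF y i ∈ Set.range en := by
          rw [← hen]
          refine Or.inr ?_
          simp only [Set.mem_iUnion]
          exact ⟨y, hy, m, i, (h2 m).1 ▸ hm, rfl⟩
        obtain ⟨k, hk⟩ := h3
        refine ⟨t, ht, γ, le_rfl, k, fun t' ht' ξ _ => ?_⟩
        simp only [LS, if_neg h1, hk]
        refine exists_congr fun n => ⟨fun ⟨a, b⟩ => ⟨(h2 n).1 ▸ a, (h2 n).2 i a t' ht' ▸ b⟩,
          fun ⟨a, b⟩ => ?_⟩
        have a' : i ∈ (R n x).A := (h2 n).1 ▸ a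
        exact ⟨a', (h2 n).2 i a' t' ht' ▸ b⟩
    · have : LF x i = fun _ _ => False := by
        funext t ξ
        exact propext ⟨fun ⟨n, h, _⟩ => hi ⟨n, h⟩, False.elim⟩
      rw [this]
      exact good_zero hN _
  refine ⟨fun x => ⟨lam, LS, ⋃ n, (R n x).A, LF x, Lg x, hN,
    Set.countable_iUnion fun n => (R n x).cA, hG x, fun i ξ => (R _ x).gle i ξ⟩, fun n x => ?_,
    fun α x y h => ⟨rfl, rfl, fun i hi => ⟨?_, ?_, ?_⟩⟩⟩
  · refine ⟨⟨(hlam' n x).le, hLS n x⟩, fun i hi => ⟨Set.mem_iUnion.2 ⟨n, hi⟩, fun ξ hξ =>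
      ⟨hLF n x i hi ξ hξ, ?_⟩⟩⟩
    have h1 : ∃ n, i ∈ (R n x).A ∧ ξ < (R n x).δ := ⟨n, hi, hξ⟩
    have h2 := Classical.epsilon_spec h1
    exact (((hanti x (le_max_left _ n)).2 i h2.1).2 ξ h2.2).2.symm.trans
      (((hanti x (le_max_right _ n)).2 i hi).2 ξ hξ).2
  · simp only [Set.mem_iUnion]
    exact exists_congr fun n => ((h n).2.2 i hi).1
  · funext t ξ
    exact propext (exists_congr fun n => by rw [((h n).2.2 i hi).1, ((h n).2.2 i hi).2.1])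
  · funext ξ
    have e : (fun n => i ∈ (R n x).A ∧ ξ < (R n x).δ) = fun n => i ∈ (R n y).A ∧ ξ < (R n y).δ :=
      funext fun n => by rw [((h n).2.2 i hi).1, (h n).1]
    show (R (Classical.epsilon fun n => i ∈ (R n x).A ∧ ξ < (R n x).δ) x).g i ξ = _
    rw [e, ((h _).2.2 i hi).2.2]

theorem sigma_closed [Om1 O] (s : ℕ → Cond O K) (hs : Antitone s) : ∃ q, ∀ n, q ≤ s n := by
  obtain ⟨L, hL, -⟩ := exists_limit () (fun n _ => s n) (fun _ => hs) (fun _ _ => rfl)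
    (fun _ _ => rfl) Set.univ Set.countable_univ
    (fun _ t => ⟨t, List.prefix_rfl, (), trivial, fun _ => ⟨rfl, fun _ _ _ _ => rfl⟩⟩)
  exact ⟨L (), fun n => hL n ()⟩

/-- the basic density lemma -/
theorem extend [Om1 O] (p : Cond O K) (γ : O) (i i' : K) {j : K} (hj : j ≤ i) :
    ∃ q, q ≤ p ∧ γ < q.δ ∧ i ∈ q.A ∧ i' ∈ q.A ∧ ∃ ξ, ξ < q.δ ∧ q.g i ξ = j ∧
      ∀ t, q.F i t ξ ∧ (i ≠ i' → ¬ q.F i' t ξ) := by
  classical
  obtain ⟨d, hd⟩ := Om1.bd ({γ, p.δ} : Set O) (Set.toFinite _).countable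
  have h1 : p.δ < d := hd _ (by simp)
  let σ : CN O := fun t ξ => p.F i t ξ ∨ ξ = p.δ
  have hσ : ∀ t ξ, σ t ξ → ξ ≤ p.δ := fun t ξ h =>
    h.elim (fun h => ((p.good i).1 _ _ h).le) le_of_eq
  let S : O → ℕ → CN O := fun β => if β ≤ p.δ then p.S β else fun _ => σ
  have hS : ∀ β, β ≤ p.δ → S β = p.S β := fun β h => if_pos h
  have hN : Nrm S := by
    intro β n t ξ hh
    by_cases h : β ≤ p.δ
    · rw [hS β h] at hh; exact p.hS _ _ _ _ hh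
    · simp only [S, if_neg h] at hh
      exact (hσ _ _ hh).trans_lt (lt_of_not_ge h)
  refine ⟨⟨d, S, insert i (insert i' p.A), Function.update p.F i σ,
    Function.update p.g i (Function.update (p.g i) p.δ j), hN, (p.cA.insert _).insert _,
    fun k => ?_, fun k ξ => ?_⟩, ⟨⟨h1.le, hS⟩, fun k hk => ⟨Or.inr (Or.inr hk), fun ξ hξ => ?_⟩⟩,
    hd _ (by simp), Or.inl rfl, Or.inr (Or.inl rfl), p.δ, h1, by simp, fun t => ⟨?_, ?_⟩⟩
  · by_cases hk : k = i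
    · subst hk
      rw [Function.update_self]
      refine ⟨fun t ξ h => (hσ _ _ h).trans_lt h1, fun γ' _ s => ?_⟩
      by_cases h2 : γ' ≤ p.δ
      · obtain ⟨t, ht, β, hβ, n, hn⟩ := (p.good k).2 γ' h2 s
        refine ⟨t, ht, β, hβ, n, fun t' ht' ξ hξ => ?_⟩
        rw [hS β (hβ.trans h2), ← hn t' ht' ξ hξ]
        exact ⟨fun h => h.elim id fun e => absurd e (hξ.trans_le h2).ne, Or.inl⟩
      · exact ⟨s, List.prefix_rfl, γ', le_rfl, 0, fun t' _ ξ _ => by simp only [S, if_neg h2]⟩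
    · rw [Function.update_of_ne hk]
      exact (p.good k).mono p.hS h1.le hS
  · by_cases hk : k = i
    · subst hk
      rw [Function.update_self]
      by_cases h2 : ξ = p.δ
      · rw [h2, Function.update_self]; exact hj
      · rw [Function.update_of_ne h2]; exact p.gle _ _
    · rw [Function.update_of_ne hk]; exact p.gle _ _
  · by_cases e : k = i
    · subst e
      simp only [Function.update_self, Function.update_of_ne hξ.ne, and_true]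
      exact fun t => ⟨fun h => h.elim id fun e => absurd e hξ.ne, Or.inl⟩
    · simp only [Function.update_of_ne e, and_true, implies_true]
  · simp only [Function.update_self]
    exact Or.inr rfl
  · intro hi
    simp only [Function.update_of_ne hi.symm]
    exact fun h => lt_irrefl _ ((p.good i').1 _ _ h)

end Pool.Agent.H926Z.KH
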