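import Pool.Agent.H926Z.KH.Fus

/-! The chain condition and the counting argument. -/

set_option linter.unusedSectionVars false

namespace Pool.Agent.H926Z.KH

open Cardinal

/-- properties of the order type of an inaccessible cardinal -/
class Inac (O K : Type) [LinearOrder K] : Prop where
  inac : (#K).IsInaccessible
  sI : ∀ i : K, #(Set.Iio i) < #K
  sO : #O < #K

variable {O K : Type} [LinearOrder O] [OrderBot O] [LinearOrder K]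

theorem sm_fun {κ : Cardinal.{0}} (h : κ.IsInaccessible) {X Y : Type} (hX : #X < κ)
    (hY : #Y < κ) : #(X → Y) < κ := by
  rw [← power_def]
  refine (power_le_power_right (cantor _).le).trans_lt ?_
  rw [← power_mul]
  exact h.isStrongPrelimit (mul_lt_of_lt h.aleph0_lt.le hY hX)

theorem sm_prod {κ : Cardinal.{0}} (h : κ.IsInaccessible) {X Y : Type} (hX : #X < κ)
    (hY : #Y < κ) : #(X × Y) < κ := by
  rw [← mul_def]
  exact mul_lt_of_lt h.aleph0_lt.le hX hY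

theorem sm_ctble {κ : Cardinal.{0}} (h : κ.IsInaccessible) (X : Type) [Countable X] : #X < κ :=
  mk_le_aleph0.trans_lt h.aleph0_lt

theorem bdd (O : Type) [hK : Inac O K] {s : Set K} (hs : #s < #K) : ∃ b, s ⊆ Set.Iio b := by
  by_contra hcon
  have h1 : (⋃ a : s, Set.Iic a.1) = Set.univ := Set.eq_univ_of_forall fun b => by
    by_contra hb
    refine hcon ⟨b, fun a ha => lt_of_not_ge fun h => hb (Set.mem_iUnion.2 ⟨⟨a, ha⟩, h⟩)⟩
  have h2 := (card_iUnion_lt_iff_forall_of_isRegular (t := fun a : s => Set.Iic a.1)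
    hK.inac.isRegular hs).2 fun a => by
      rw [← Set.Iio_insert]
      exact mk_insert_le.trans_lt (add_lt_of_lt hK.inac.aleph0_lt.le (hK.sI _)
        (one_lt_aleph0.trans hK.inac.aleph0_lt))
  rw [h1, mk_univ] at h2
  exact lt_irrefl _ h2

def Key (O : Type) {K : Type} [LinearOrder K] (η : K) : Type :=
  O × (O → ℕ → CN O) × (Set.Iio η → Prop × CN O × (O → Set.Iio η))

theorem sm_key [hK : Inac O K] (η : K) : #(Key O η) < #K := by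
  have h := hK.inac
  have h1 : #(CN O) < #K := sm_fun h (sm_ctble h _) (sm_fun h hK.sO (sm_ctble h _))
  exact sm_prod h hK.sO (sm_prod h (sm_fun h hK.sO (sm_fun h (sm_ctble h _) h1))
    (sm_fun h (hK.sI η) (sm_prod h (sm_ctble h _) (sm_prod h h1 (sm_fun h hK.sO (hK.sI η))))))

def key (η : K) (p : Cond O K) : Key O η :=
  (p.δ, p.S, fun i => (i.1 ∈ p.A, p.F i.1, fun ξ => ⟨p.g i.1 ξ, (p.gle _ _).trans_lt i.2⟩))

theorem same_of_key {η : K} {p q : Cond O K} (h : key η p = key η q) : SameA η p q := by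
  simp only [key, Key, Prod.mk.injEq] at h
  refine ⟨h.1, h.2.1, fun i hi => ?_⟩
  have := congrFun h.2.2 ⟨i, hi⟩
  simp only [Prod.mk.injEq] at this
  exact ⟨this.1.to_iff, this.2.1, funext fun ξ => congrArg Subtype.val (congrFun this.2.2 ξ)⟩

theorem closure [WellFoundedLT O] [WellFoundedLT K] [Om1 O] [hK : Inac O K] {J : Type}
    (hJ : #J < #K) (E : J → Set (Cond O K)) : ∃ α, ∀ j r, r ∈ E j →
      ∃ u ∈ E j, u.A ⊆ Set.Iio α ∧ ∃ w, w ≤ r ∧ w ≤ u := by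
  classical
  have step : ∀ η : K, ∃ b, η ≤ b ∧ ∀ j r, r ∈ E j → ∃ u ∈ E j, SameA η u r ∧ u.A ⊆ Set.Iio b := by
    intro η
    have h1 : ∀ x : J × Key O η, ∃ u : Cond O K, (∃ r ∈ E x.1, key η r = x.2) →
        u ∈ E x.1 ∧ key η u = x.2 := fun x => by
      by_cases h : ∃ r ∈ E x.1, key η r = x.2
      · obtain ⟨r, h⟩ := h; exact ⟨r, fun _ => h⟩
      · exact ⟨⊤, fun h' => absurd h' h⟩
    choose ch hch using h1
    obtain ⟨b, hb⟩ := bdd O ((card_iUnion_lt_iff_forall_of_isRegular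
      (t := fun x => (ch x).A) hK.inac.isRegular (sm_prod hK.inac hJ (sm_key η))).2 fun x =>
        (ch x).cA.le_aleph0.trans_lt hK.inac.aleph0_lt)
    refine ⟨max η b, le_max_left _ _, fun j r hr => ?_⟩
    have := hch (j, key η r) ⟨r, hr, rfl⟩
    exact ⟨_, this.1, same_of_key this.2, fun i hi =>
      (hb (Set.mem_iUnion.2 ⟨_, hi⟩)).trans_le (le_max_right _ _)⟩
  choose h hh hh' using step
  obtain ⟨k0, -⟩ := bdd O (s := (∅ : Set K)) (by simpa using hK.inac.pos)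
  haveI : Nonempty K := ⟨k0⟩
  let s : O → K := WellFoundedLT.fix fun ν ih =>
    Classical.epsilon fun b => ∀ μ (hμ : μ < ν), h (ih μ hμ) < b
  have hs : ∀ ν μ, μ < ν → h (s μ) < s ν := by
    intro ν
    have e : s ν = Classical.epsilon fun b => ∀ μ (_ : μ < ν), h (s μ) < b :=
      WellFoundedLT.fix_eq _ ν
    rw [e]
    refine Classical.epsilon_spec (p := fun b => ∀ μ (_ : μ < ν), h (s μ) < b) ?_
    obtain ⟨b, hb⟩ := bdd O (s := (fun μ => h (s μ)) '' Set.Iic ν)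
      (((Om1.cI ν).image _).le_aleph0.trans_lt hK.inac.aleph0_lt)
    exact ⟨b, fun μ hμ => hb ⟨μ, hμ.le, rfl⟩⟩
  obtain ⟨b, hb⟩ := bdd O (s := Set.range s) (mk_range_le.trans_lt hK.sO)
  obtain ⟨α, hα, hmin⟩ := (wellFounded_lt (α := K)).has_min {b | ∀ ν, s ν ≤ b}
    ⟨b, fun ν => (hb ⟨ν, rfl⟩).le⟩
  have hcof : ∀ i, i < α → ∃ ν, i < s ν := fun i hi => by
    by_contra hc
    exact hmin i (fun ν => le_of_not_gt fun h => hc ⟨ν, h⟩) hi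
  choose! ν hν using hcof
  refine ⟨α, fun j r hr => ?_⟩
  obtain ⟨ν0, h0⟩ := Om1.bd (ν '' r.A) (r.cA.image _)
  obtain ⟨ν1, h1⟩ := Om1.bd {ν0} (Set.countable_singleton _)
  obtain ⟨u, hu, h2, h3⟩ := hh' (s ν0) j r hr
  have h4 : u.A ⊆ Set.Iio α := fun i hi => (h3 hi).trans ((hs _ _ (h1 _ rfl)).trans_le (hα _))
  obtain ⟨w, w1, w2, -⟩ := amalg (α := α) (w := u) (r := r) ⟨h2.leA.1, fun i hi hi' =>
    h2.leA.2 i ((hν i hi).trans ((hh _).trans_lt (hs _ _ (h0 _ ⟨i, hi', rfl⟩)))) hi'⟩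
  exact ⟨u, hu, h4, w, w1, w2.leA.le h4⟩

theorem comb [WellFoundedLT O] [WellFoundedLT K] [Om1 O] [hK : Inac O K]
    (D : K → O → ℕ → Set (Cond O K)) (hD : ∀ ξ γ n, Down (D ξ γ n)) (p : Cond O K) :
    ∃ q, q ≤ p ∧ ((∃ ξ γ, ∀ r, r ≤ q → ∀ n, r ∉ D ξ γ n) ∨
      (∃ ξ η β γ n m m', β ≤ γ ∧ m ≠ m' ∧ q ∈ D ξ γ n ∧ q ∈ D η γ n ∧ q ∈ D ξ β m ∧
        q ∈ D η β m') ∨
      ∃ ξ η, ξ ≠ η ∧ ∀ r, r ≤ q → ∀ γ n m, r ∈ D ξ γ n → r ∈ D η γ m → n = m) := by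
  by_contra hcon
  have hA : ∀ ξ γ q, q ≤ p → ∃ r, r ≤ q ∧ ∃ n, r ∈ D ξ γ n := fun ξ γ q hq => by
    by_contra hh
    exact hcon ⟨q, hq, Or.inl ⟨ξ, γ, fun r hr n h => hh ⟨r, hr, n, h⟩⟩⟩
  have hB : ∀ ξ η q, ξ ≠ η → q ≤ p → ∃ r, r ≤ q ∧ ∃ γ n m, r ∈ D ξ γ n ∧ r ∈ D η γ m ∧ n ≠ m :=
    fun ξ η q hne hq => by
      by_contra hh
      exact hcon ⟨q, hq, Or.inr (Or.inr ⟨ξ, η, hne, fun r hr γ n m h h' =>
        by_contra fun h'' => hh ⟨r, hr, γ, n, m, h, h', h''⟩⟩)⟩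
  let U : O → ℕ → O → ℕ → Set (Cond O K) := fun β m γ n => {r | ∃ η, r ∈ D η β m ∧ r ∈ D η γ n}
  have hU : ∀ β m γ n, Down (U β m γ n) := fun β m γ n a b ⟨η, h1, h2⟩ h =>
    ⟨η, hD _ _ _ _ _ h1 h, hD _ _ _ _ _ h2 h⟩
  have h := hK.inac
  obtain ⟨α, hα⟩ := closure (J := (O × ℕ) × (O × ℕ)) (sm_prod h (sm_prod h hK.sO (sm_ctble h _))
    (sm_prod h hK.sO (sm_ctble h _))) fun j => {u | u ∈ U j.1.1 j.1.2 j.2.1 j.2.2 ∨
      ∀ r, r ≤ u → r ∉ U j.1.1 j.1.2 j.2.1 j.2.2}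
  have hdet : ∀ ξ, ∃ q, q ≤ p ∧ Bad α (D ξ) q ∅ := fun ξ => exists_bad (hD ξ) (hA ξ) U hU
    (fun β m γ n r h1 h2 => ⟨ξ, h1, h2⟩)
    (fun β m m' γ n r hβ hr ⟨η, a1, a2⟩ ⟨η', b1, b2⟩ => by_contra fun hne =>
      hcon ⟨r, hr, Or.inr (Or.inl ⟨η, η', β, γ, n, m, m', hβ, hne, a2, b2, a1, b1⟩)⟩)
    (fun β m γ n q _ => by
      obtain ⟨r, hr, hr'⟩ : ∃ r, r ≤ q ∧ (r ∈ U β m γ n ∨ ∀ r', r' ≤ r → r' ∉ U β m γ n) := by
        by_cases hh : ∀ r', r' ≤ q → r' ∉ U β m γ n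
        · exact ⟨q, le_rfl, Or.inr hh⟩
        · simp only [not_forall, not_not] at hh
          obtain ⟨r, h1, h2⟩ := hh
          exact ⟨r, h1, Or.inl h2⟩
      obtain ⟨u, hu, h1, w, h2, h3⟩ := hα ((β, m), (γ, n)) r hr'
      exact ⟨w, h2.trans hr, u, h1, h3, hu⟩)
  choose q hq hq' using hdet
  let Nn : K → Key O α × O × ℕ → Prop := fun ξ x =>
    ∃ r, r ≤ q ξ ∧ key α r = x.1 ∧ r ∈ D ξ x.2.1 x.2.2
  have hgood : ∀ ξ η w, Nn ξ = Nn η → w ≤ q ξ → w ≤ q η → ξ = η := fun ξ η w e h1 h2 => by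
    by_contra hne
    obtain ⟨r, hr, γ, n, m, a1, a2, a3⟩ := hB ξ η w hne (h1.trans (hq ξ))
    have : Nn η (key α r, γ, n) := e ▸ ⟨r, hr.trans h1, rfl, a1⟩
    obtain ⟨r', b1, b2, b3⟩ := this
    exact a3 ((hq' η).det (hD η) b1 (hr.trans h2) (same_of_key b2) b3 a2)
  have hJ : #(Key O α × O × ℕ → Prop) < #K :=
    sm_fun h (sm_prod h (sm_key α) (sm_prod h hK.sO (sm_ctble h _))) (sm_ctble h _)
  obtain ⟨α', hα'⟩ := closure hJ fun v => {r | ∃ ξ, Nn ξ = v ∧ r ≤ q ξ}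
  choose u hu hu1 w hw1 hw2 using fun ξ => hα' (Nn ξ) (q ξ) ⟨ξ, rfl, le_rfl⟩
  have hu2 : ∀ ξ, u ξ ≤ q ξ := fun ξ => by
    obtain ⟨η, e, h1⟩ := hu ξ
    obtain rfl := hgood η ξ (w ξ) e ((hw2 ξ).trans h1) (hw1 ξ)
    exact h1
  have hinj : Function.Injective fun ξ => (Nn ξ, key α' (u ξ)) := fun ξ η e => by
    simp only [Prod.mk.injEq] at e
    exact hgood ξ η (u ξ) e.1 (hu2 ξ) (((same_of_key e.2).leA.le (hu1 η)).trans (hu2 η))
  exact absurd (mk_le_of_injective hinj) (not_le.2 (sm_prod h hJ (sm_key α')))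

end Pool.Agent.H926Z.KH
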