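import Pool.Agent.H926Z.WK.Defs

/-!
# The Kurepa hypothesis inside a transitive class `W` of sets
-/

namespace Pool.Agent.H926Z.KH

open ZFSet WK

/-- `W ⊨ KH`: with `κ = ω₁` and `lam = ω₂` computed in `W`, there is in `W` a tree of height `ω₁`
all of whose levels are countable, with at least `ω₂` cofinal branches. -/
def KH (W : Set ZFSet.{0}) : Prop :=
  ∃ κ lam, IsSuccIn W omegaZ κ ∧ IsSuccIn W κ lam ∧ ∃ T ∈ W, ∃ R ∈ W, StrictPO T R ∧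
    (∀ t ∈ T, ∃ α ∈ κ, HtIn W T R t α) ∧ (∀ α ∈ κ, ∃ t ∈ T, HtIn W T R t α) ∧
    (∀ α ∈ κ, ∃ L ∈ W, (∀ t, t ∈ L ↔ t ∈ T ∧ HtIn W T R t α) ∧ LeIn W L omegaZ) ∧
    ∃ B ∈ W, (∀ b ∈ B, BranchIn W T R κ b) ∧ LeIn W lam B

end Pool.Agent.H926Z.KH
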