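import Pool.Agent.H926Z.KH.Cond

/-! The fusion argument: the tail of the forcing adds no new branch. -/

set_option linter.unusedSectionVars false

namespace Pool.Agent.H926Z.KH

variable {O K : Type} [LinearOrder O] [OrderBot O] [LinearOrder K]

def Down (E : Set (Cond O K)) : Prop := ∀ p q, p ∈ E → q ≤ p → q ∈ E

def Bad (α : K) (D : O → ℕ → Set (Cond O K)) (q : Cond O K) (a : Set (List Bool)) : Prop :=
  ∀ r r', r ≤ q → r' ≤ q → Eqv α a r r' → ∀ γ n n', r ∈ D γ n → r' ∈ D γ n' → n = n'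

def Out (s : List Bool) : Set (List Bool) := {t | ¬ s <+: t ∧ ¬ t <+: s}

theorem up_out (s : List Bool) : Up (Out s) := fun _ ht _ h =>
  ⟨fun h' => (List.prefix_or_prefix_of_prefix h' h).elim ht.1 ht.2, fun h' => ht.2 (h.trans h')⟩

theorem out_mono {s s' : List Bool} (h : s <+: s') : Out s ⊆ Out s' := fun _ ht =>
  ⟨fun h' => ht.1 (h.trans h'), fun h' => (List.prefix_or_prefix_of_prefix h h').elim ht.1 ht.2⟩

theorem out_inter (s : List Bool) : Out (s ++ [false]) ∩ Out (s ++ [true]) ⊆ Out s := by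
  rintro t ⟨h0, h1⟩
  refine ⟨?_, fun h => h0.2 (h.trans (List.prefix_append _ _))⟩
  rintro ⟨u, rfl⟩
  rcases u with _ | ⟨b, u⟩
  · exact h0.2 (by simp)
  · cases b
    · exact h0.1 ⟨u, by simp⟩
    · exact h1.1 ⟨u, by simp⟩

variable {α : K} {D : O → ℕ → Set (Cond O K)} {p q : Cond O K} {a b : Set (List Bool)}

theorem Bad.mono (h : Bad α D q a) {q' : Cond O K} (hq : q' ≤ q) (hb : a ⊆ b) : Bad α D q' b :=
  fun r r' h1 h2 h3 => h r r' (h1.trans hq) (h2.trans hq) (h3.mono hb)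

theorem Bad.inter (hD : ∀ γ n, Down (D γ n)) (hA : ∀ γ q, q ≤ p → ∃ r, r ≤ q ∧ ∃ n, r ∈ D γ n)
    (hq : q ≤ p) (ha : Up a) (hb : Up b) (h : Bad α D q a) (h' : Bad α D q b) :
    Bad α D q (a ∩ b) := by
  intro r r' h1 h2 h3 γ n n' h4 h5
  obtain ⟨c, c1, c2, c3⟩ := mixing ha h3 h1 h2
  obtain ⟨w, w1, m, w2⟩ := hA γ c (c1.trans hq)
  obtain ⟨d, d1, d2⟩ := copy ha c2 w1
  obtain ⟨e, e1, e2⟩ := copy hb c3 w1
  exact (h d w (d1.trans h1) (w1.trans c1) d2 γ n m (hD _ _ _ _ h4 d1) w2).trans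
    (h' e w (e1.trans h2) (w1.trans c1) e2 γ n' m (hD _ _ _ _ h5 e1) w2).symm

theorem Bad.det (hD : ∀ γ n, Down (D γ n)) (h : Bad α D q ∅) {r r' : Cond O K} (h1 : r ≤ q)
    (h2 : r' ≤ q) (h3 : SameA α r r') {γ : O} {n n' : ℕ} (h4 : r ∈ D γ n) (h5 : r' ∈ D γ n') :
    n = n' := by
  obtain ⟨c, c1, c2, c3⟩ := amalg h3.symm.leA
  obtain ⟨d, d1, d2, d3⟩ := amalg h3.leA
  exact h c d (c1.trans h1) (d1.trans h2) ⟨c2.trans (h3.symm.trans d2.symm),
    by rw [c3, d3, Set.union_comm], fun _ _ _ h => h.elim⟩ γ n n' (hD _ _ _ _ h4 c1)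
    (hD _ _ _ _ h5 d1)

theorem exists_parts [Om1 O] (hD : ∀ γ n, Down (D γ n))
    (hA : ∀ γ q, q ≤ p → ∃ r, r ≤ q ∧ ∃ n, r ∈ D γ n) (hn : ∀ q, q ≤ p → ¬ Bad α D q ∅) :
    ∃ q, q ≤ p ∧ ∃ a : ℕ → Set (List Bool), (∀ m, Up (a m)) ∧ Monotone a ∧
      (∀ t, ∃ t', t <+: t' ∧ ∃ m, t' ∈ a m) ∧ ∀ m q', q' ≤ q → ¬ Bad α D q' (a m) := by
  let St := {x : Cond O K × List Bool // x.1 ≤ p ∧ ∀ q', q' ≤ x.1 → ¬ Bad α D q' (Out x.2)}
  have step : ∀ x : St, ∃ y : St, y.1.1 ≤ x.1.1 ∧ ∃ b, y.1.2 = x.1.2 ++ [b] := by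
    rintro ⟨⟨q, s⟩, h1, h2⟩
    by_cases h3 : ∀ q', q' ≤ q → ¬ Bad α D q' (Out (s ++ [false]))
    · exact ⟨⟨(q, s ++ [false]), h1, h3⟩, le_rfl, false, rfl⟩
    · simp only [not_forall, not_not] at h3
      obtain ⟨q0, h4, h5⟩ := h3
      refine ⟨⟨(q0, s ++ [true]), h4.trans h1, fun q1 h6 h7 => h2 q1 (h6.trans h4) ?_⟩, h4, true,
        rfl⟩
      exact (Bad.inter hD hA (h6.trans (h4.trans h1)) (up_out _) (up_out _)
        (h5.mono h6 subset_rfl) h7).mono le_rfl (out_inter s)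
  choose f hf hf' using step
  let x0 : St := ⟨(p, []), le_rfl, fun q' h1 h2 => hn q' h1 (h2.mono le_rfl fun t ht =>
    ht.1 List.nil_prefix)⟩
  let s : ℕ → St := fun n => f^[n] x0
  have hs : ∀ n, s (n + 1) = f (s n) := fun n => Function.iterate_succ_apply' f n x0
  obtain ⟨q, hq⟩ := sigma_closed (fun n => (s n).1.1)
    (antitone_nat_of_succ_le fun n => by rw [hs]; exact hf _)
  have hlen : ∀ n, (s n).1.2.length = n := by
    intro n
    induction n with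
    | zero => rfl
    | succ n ih =>
      obtain ⟨b, hb⟩ := hf' (s n)
      rw [hs, hb, List.length_append, ih]; rfl
  refine ⟨q, hq 0, fun m => Out (s m).1.2, fun m => up_out _, monotone_nat_of_le_succ fun n => ?_,
    fun t => ?_, fun m q' h => (s m).2.2 q' (h.trans (hq m))⟩
  · obtain ⟨b, hb⟩ := hf' (s n)
    rw [hs, hb]
    exact out_mono (List.prefix_append _ _)
  · obtain ⟨b, hb⟩ := hf' (s t.length)
    have h1 : (t ++ [!b]).length = ((s t.length).1.2 ++ [b]).length := by simp [hlen]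
    have h2 : t ++ [!b] ≠ (s t.length).1.2 ++ [b] := fun e => by
      have := (List.append_inj' e rfl).2
      cases b <;> simp at this
    refine ⟨t ++ [!b], List.prefix_append _ _, t.length + 1, ?_⟩
    show t ++ [!b] ∈ Out (s (t.length + 1)).1.2
    rw [hs, hb]
    exact ⟨fun h => h2 (h.eq_of_length h1.symm).symm, fun h => h2 (h.eq_of_length h1)⟩

def Ag (n : ℕ) (x y : ℕ → Bool) : Prop := ∀ i, i < n → x i = y i

theorem Ag.symm {n : ℕ} {x y : ℕ → Bool} (h : Ag n x y) : Ag n y x := fun i hi => (h i hi).symm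

theorem Ag.trans {n : ℕ} {x y z : ℕ → Bool} (h : Ag n x y) (h' : Ag n y z) : Ag n x z :=
  fun i hi => (h i hi).trans (h' i hi)

theorem Ag.mono {n m : ℕ} {x y : ℕ → Bool} (h : Ag n x y) (h' : m ≤ n) : Ag m x y :=
  fun i hi => h i (hi.trans_le h')

def Sys (α : K) (a : ℕ → Set (List Bool)) (q : Cond O K) (R : (ℕ → Bool) → Cond O K) : Prop :=
  (∀ x, R x ≤ q) ∧ ∀ k x y, Ag k x y → Eqv α (a k) (R x) (R y)

def Spl (D : O → ℕ → Set (Cond O K)) (R : (ℕ → Bool) → Cond O K) (n : ℕ) (w : ℕ → Bool) : Prop :=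
  ∃ γ, ∃ v : Bool → ℕ, v false ≠ v true ∧ ∀ x, Ag n x w → R x ∈ D γ (v (x n))

theorem cp_congr {w r r' : Cond O K} {a a' : Set (List Bool)} (e : a = a') (e' : r = r')
    (ha : Up a) (ha' : Up a') (h : Stem w r) (h' : Stem w r') :
    cp α a w r ha h = cp α a' w r' ha' h' := by
  subst e e'; rfl

variable {c : ℕ → Set (List Bool)} {R : (ℕ → Bool) → Cond O K}

theorem step1 (hc : ∀ m, Up (c m)) (hm : Monotone c) (hsp : ∀ m q', q' ≤ q → ¬ Bad α D q' (c m))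
    (hR : Sys α c q R) (n : ℕ) (w : ℕ → Bool) (hw : ∀ x, Ag n x w → R x = R w) :
    ∃ R', Sys α c q R' ∧ (∀ x, R' x ≤ R x) ∧ Spl D R' n w ∧
      (∀ x y, Ag n x y → ¬ Ag n x w → R x = R y → R' x = R' y) ∧
      ∀ x y, Ag (n + 1) x y → Ag n x w → R' x = R' y := by
  classical
  have h0 := hsp n (R w) (hR.1 w)
  simp only [Bad, not_forall] at h0
  obtain ⟨r0, r1, h0, h1, he, γ, v0, v1, hv0, hv1, hne⟩ := h0
  let ax : (ℕ → Bool) → Set (List Bool) := fun x => {t | ∃ k, Ag k x w ∧ t ∈ c k}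
  have hax : ∀ x, Up (ax x) := fun x t ⟨k, h, h'⟩ t' ht' => ⟨k, h, hc k t h' t' ht'⟩
  have hE : ∀ x y, Eqv α (c 0) (R x) (R y) := fun x y => hR.2 0 x y fun _ h => by omega
  have hL : ∀ x, LeA α r0 (R x) := fun x => (LeA.of_le h0).trans (hE w x).1.leA
  have hsub : ∀ x, (R x).A ⊆ r0.A := fun x => (hE w x).2.1 ▸ le_sub h0
  let cx : (ℕ → Bool) → Cond O K := fun x => cp α (ax x) r0 (R x) (hax x) (hL x).1
  have hcx : ∀ x, Eqv α (ax x) (cx x) r0 := fun x => cp_eqv (hL x) (hsub x)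
  let rb : Bool → Cond O K := fun b => cond b r1 r0
  have hrb : ∀ b, rb b ≤ R w ∧ Eqv α (c n) (rb b) r0 := fun b => by
    cases b
    · exact ⟨h0, Eqv.refl _ _ _⟩
    · exact ⟨h1, he.symm⟩
  let R' : (ℕ → Bool) → Cond O K := fun x => if Ag n x w then rb (x n) else cx x
  have e1 : ∀ x, Ag n x w → R' x = rb (x n) := fun x h => if_pos h
  have e2 : ∀ x, ¬ Ag n x w → R' x = cx x := fun x h => if_neg h
  have hle : ∀ x, R' x ≤ R x := fun x => by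
    by_cases h : Ag n x w
    · rw [e1 x h, hw x h]; exact (hrb _).1
    · rw [e2 x h]
      refine cp_le (hL x) fun i hi t ⟨k, h2, h3⟩ ξ hξ => ?_
      have h4 := hR.2 k x w h2
      rw [h4.2.2 i hi t h3]
      exact ((h0.2 i (h4.2.1 ▸ hi)).2 ξ (h4.1.1 ▸ hξ)).1 t
  have mixed : ∀ k x y, Ag k x y → Ag n x w → ¬ Ag n y w → Eqv α (c k) (R' x) (R' y) := by
    intro k x y h hx hy
    have hk : k ≤ n := le_of_not_ge fun hh => hy ((h.mono hh).symm.trans hx)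
    rw [e1 x hx, e2 y hy]
    exact ((hrb _).2.mono (hm hk)).trans ((hcx y).mono fun t ht =>
      ⟨k, h.symm.trans (hx.mono hk), ht⟩).symm
  refine ⟨R', ⟨fun x => (hle x).trans (hR.1 x), fun k x y h => ?_⟩, hle,
    ⟨γ, fun b => cond b v1 v0, hne, fun x hx => ?_⟩, fun x y h hx e => ?_, fun x y h hx => ?_⟩
  · by_cases hx : Ag n x w <;> by_cases hy : Ag n y w
    · rw [e1 x hx, e1 y hy]
      rcases le_or_gt k n with hk | hk
      · exact ((hrb _).2.trans (hrb _).2.symm).mono (hm hk)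
      · rw [h n hk]; exact Eqv.refl _ _ _
    · exact mixed k x y h hx hy
    · exact (mixed k y x h.symm hy hx).symm
    · rw [e2 x hx, e2 y hy]
      refine ⟨(hcx x).1.trans (hcx y).1.symm, (hcx x).2.1.trans (hcx y).2.1.symm,
        fun i _ t ht => ?_⟩
      have key : ∀ x y, Ag k x y → t ∈ ax x → t ∈ ax y := fun x y h ⟨k', h2, h3⟩ => by
        rcases le_total k' k with hk | hk
        · exact ⟨k', (h.mono hk).symm.trans h2, h3⟩
        · exact ⟨k, h.symm.trans (h2.mono hk), ht⟩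
      have h4 := hR.2 k x y h
      by_cases h5 : (i < α ∨ i ∉ (R x).A) ∨ t ∈ ax x
      · rw [cp_F1 h5, cp_F1 (h5.imp (fun hh => h4.2.1 ▸ hh) (key x y h))]
      · rw [cp_F2 h5, cp_F2 fun hh => h5 (hh.imp (fun hh => h4.2.1 ▸ hh) (key y x h.symm))]
        exact h4.2.2 i (by_contra fun hh => h5 (Or.inl (Or.inr hh))) t ht
  · rw [e1 x hx]
    cases x n
    · exact hv0
    · exact hv1
  · have hy : ¬ Ag n y w := fun hh => hx (h.trans hh)
    rw [e2 x hx, e2 y hy]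
    refine cp_congr ?_ e _ _ _ _
    have key : ∀ x y, Ag n x y → ¬ Ag n x w → ax x ⊆ ax y := fun x y h hx t ⟨k, h2, h3⟩ =>
      ⟨k, (h.mono (le_of_not_ge fun hh => hx (h2.mono hh))).symm.trans h2, h3⟩
    exact (key x y h hx).antisymm (key y x h.symm hy)
  · rw [e1 x hx, e1 y ((h.mono (Nat.le_succ n)).symm.trans hx), h n (Nat.lt_succ_self n)]

theorem Spl.mono (hD : ∀ γ n, Down (D γ n)) {n : ℕ} {w : ℕ → Bool} (h : Spl D R n w)
    {R' : (ℕ → Bool) → Cond O K} (h' : ∀ x, R' x ≤ R x) : Spl D R' n w := by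
  obtain ⟨γ, v, h1, h2⟩ := h
  exact ⟨γ, v, h1, fun x hx => hD _ _ _ _ (h2 x hx) (h' x)⟩

theorem Spl.of_ag {n : ℕ} {w w' : ℕ → Bool} (h : Spl D R n w) (h' : Ag n w' w) : Spl D R n w' := by
  obtain ⟨γ, v, h1, h2⟩ := h
  exact ⟨γ, v, h1, fun x hx => h2 x (hx.trans h')⟩

theorem stepL (hD : ∀ γ n, Down (D γ n)) (hc : ∀ m, Up (c m)) (hm : Monotone c)
    (hsp : ∀ m q', q' ≤ q → ¬ Bad α D q' (c m)) (hR : Sys α c q R) (n : ℕ)
    (hw : ∀ x y, Ag n x y → R x = R y) (L : List (ℕ → Bool)) :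
    ∃ R', Sys α c q R' ∧ (∀ x, R' x ≤ R x) ∧ (∀ w ∈ L, Spl D R' n w) ∧
      (∀ x y, Ag (n + 1) x y → R' x = R' y) ∧
      ∀ x y, Ag n x y → (∀ w ∈ L, ¬ Ag n x w) → R' x = R' y := by
  induction L with
  | nil => exact ⟨R, hR, fun _ => le_rfl, by simp, fun x y h => hw x y (h.mono (Nat.le_succ n)),
      fun x y h _ => hw x y h⟩
  | cons w L ih =>
    obtain ⟨R1, a1, a2, a3, a4, a5⟩ := ih
    by_cases h : ∃ w' ∈ L, Ag n w w'
    · obtain ⟨w', h1, h2⟩ := h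
      refine ⟨R1, a1, a2, fun u hu => ?_, a4, fun x y h3 h4 =>
        a5 x y h3 fun u hu => h4 u (List.mem_cons_of_mem _ hu)⟩
      rcases List.mem_cons.1 hu with rfl | hu
      · exact (a3 w' h1).of_ag h2
      · exact a3 u hu
    · obtain ⟨R2, b1, b2, b3, b4, b5⟩ := step1 hc hm hsp a1 n w fun x hx =>
        a5 x w hx fun u hu hh => h ⟨u, hu, hx.symm.trans hh⟩
      refine ⟨R2, b1, fun x => (b2 x).trans (a2 x), fun u hu => ?_, fun x y h3 => ?_,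
        fun x y h3 h4 => b4 x y h3 (h4 w List.mem_cons_self)
          (a5 x y h3 fun u hu => h4 u (List.mem_cons_of_mem _ hu))⟩
      · rcases List.mem_cons.1 hu with rfl | hu
        · exact b3
        · exact (a3 u hu).mono hD b2
      · by_cases hx : Ag n x w
        · exact b5 x y h3 hx
        · exact b4 x y (h3.mono (Nat.le_succ n)) hx (a4 x y h3)

/-- truncation -/
def trc (n : ℕ) (f : Fin n → Bool) : ℕ → Bool := fun i => if h : i < n then f ⟨i, h⟩ else false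

theorem ag_trc (n : ℕ) (x : ℕ → Bool) : Ag n x (trc n fun i => x i) := fun i hi => by
  simp only [trc, dif_pos hi]

theorem exists_tree (hD : ∀ γ n, Down (D γ n)) (hc : ∀ m, Up (c m)) (hm : Monotone c)
    (hsp : ∀ m q', q' ≤ q → ¬ Bad α D q' (c m)) :
    ∃ R : ℕ → (ℕ → Bool) → Cond O K, (∀ n, Sys α c q (R n)) ∧ (∀ n x, R (n + 1) x ≤ R n x) ∧
      ∀ n w, Spl D (R (n + 1)) n w := by
  let St := fun n : ℕ => {R : (ℕ → Bool) → Cond O K // Sys α c q R ∧ ∀ x y, Ag n x y → R x = R y}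
  have step : ∀ n (x : St n), ∃ y : St (n + 1), (∀ z, y.1 z ≤ x.1 z) ∧ ∀ w, Spl D y.1 n w := by
    rintro n ⟨R, h1, h2⟩
    obtain ⟨R', a1, a2, a3, a4, -⟩ := stepL hD hc hm hsp h1 n h2
      ((Finset.univ : Finset (Fin n → Bool)).toList.map (trc n))
    exact ⟨⟨R', a1, a4⟩, a2, fun w => (a3 _ (List.mem_map.2 ⟨fun i => w i, by simp, rfl⟩)).of_ag
      (ag_trc n w)⟩
  choose f hf hf' using step
  let s : ∀ n, St n := fun n => Nat.rec (motive := St)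
    ⟨fun _ => q, ⟨fun _ => le_rfl, fun _ _ _ _ => Eqv.refl _ _ _⟩, fun _ _ _ => rfl⟩ f n
  exact ⟨fun n => (s n).1, fun n => (s n).2.1, fun n => hf n (s n), fun n => hf' n (s n)⟩

theorem baire [Om1 O] {J : Type} [Countable J] (E : J → Set (Cond O K)) (hE : ∀ j, Down (E j))
    (h : ∀ j q, q ≤ p → ∃ r, r ≤ q ∧ r ∈ E j) : ∃ q, q ≤ p ∧ ∀ j, q ∈ E j := by
  rcases isEmpty_or_nonempty J with hJ | hJ
  · exact ⟨p, le_rfl, fun j => hJ.elim j⟩
  obtain ⟨e, he⟩ := exists_surjective_nat J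
  choose f hf hf' using fun (n : ℕ) (x : {q // q ≤ p}) => h (e n) x.1 x.2
  let s : ℕ → {q // q ≤ p} := fun n => Nat.rec ⟨p, le_rfl⟩
    (fun n x => ⟨f n x, (hf n x).trans x.2⟩) n
  obtain ⟨q, hq⟩ := sigma_closed (fun n => (s n).1) (antitone_nat_of_succ_le fun n => hf n (s n))
  refine ⟨q, hq 0, fun j => ?_⟩
  obtain ⟨n, rfl⟩ := he j
  exact hE _ _ _ (hf' n (s n)) (hq (n + 1))

theorem exists_bad [Om1 O] (hD : ∀ γ n, Down (D γ n))
    (hA : ∀ γ q, q ≤ p → ∃ r, r ≤ q ∧ ∃ n, r ∈ D γ n) (U : O → ℕ → O → ℕ → Set (Cond O K))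
    (hU : ∀ β m γ n, Down (U β m γ n)) (hDU : ∀ β m γ n r, r ∈ D β m → r ∈ D γ n → r ∈ U β m γ n)
    (hC : ∀ β m m' γ n r, β ≤ γ → r ≤ p → r ∈ U β m γ n → r ∈ U β m' γ n → m = m')
    (hdec : ∀ β m γ n q, q ≤ p → ∃ w, w ≤ q ∧ ∃ u, u.A ⊆ Set.Iio α ∧ w ≤ u ∧
      (u ∈ U β m γ n ∨ ∀ r, r ≤ u → r ∉ U β m γ n)) : ∃ q, q ≤ p ∧ Bad α D q ∅ := by
  classical
  by_contra hcon
  obtain ⟨q, hq, c, hc, hm, hden, hsp⟩ := exists_parts hD hA fun q h h' => hcon ⟨q, h, h'⟩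
  obtain ⟨R, hR, hle, hspl⟩ := exists_tree hD hc hm hsp
  have hE : ∀ n x y, Eqv α (c 0) (R n x) (R n y) := fun n x y =>
    (hR n).2 0 x y fun _ h => by omega
  obtain ⟨L, hL, hL'⟩ := exists_limit (fun _ => false) R
    (fun x => antitone_nat_of_succ_le fun n => hle n x) (fun n x => (hE n x _).1.1)
    (fun n x => (hE n x _).1.2.1) (Set.range fun y : Σ n, Fin n → Bool => trc y.1 y.2)
    (Set.countable_range _) (fun x s => by
      obtain ⟨t, ht, m, hm⟩ := hden s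
      refine ⟨t, ht, _, ⟨⟨m, fun i => x i⟩, rfl⟩, fun n => ?_⟩
      have := (hR n).2 m x _ (ag_trc m x)
      exact ⟨this.2.1, fun i hi t' ht' => this.2.2 i hi t' (hc m t hm t' ht')⟩)
  choose Γ v hv hΓ using hspl
  obtain ⟨γ', hγ'⟩ := Om1.bd (Set.range fun y : Σ n, Fin n → Bool => Γ y.1 (trc y.1 y.2))
    (Set.countable_range _)
  have hLp : ∀ x, L x ≤ p := fun x => (hL 0 x).trans (((hR 0).1 x).trans hq)
  haveI : Countable (Set.Iic γ') := (Om1.cI γ').to_subtype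
  obtain ⟨z, hz, hz'⟩ := baire (p := L fun _ => false) (J := Set.Iic γ' × ℕ × ℕ)
    (fun j => {w | ∃ u, u.A ⊆ Set.Iio α ∧ w ≤ u ∧
      (u ∈ U j.1 j.2.1 γ' j.2.2 ∨ ∀ r, r ≤ u → r ∉ U j.1 j.2.1 γ' j.2.2)})
    (fun j a b ⟨u, h1, h2, h3⟩ h => ⟨u, h1, h.trans h2, h3⟩)
    (fun j w hw => hdec _ _ _ _ w (hw.trans (hLp _)))
  have key : ∀ x, ∃ n, ∀ β m, β ≤ γ' → L x ∈ D β m → z ∈ U β m γ' n := by
    intro x
    obtain ⟨d, d1, d2, -⟩ := amalg ((LeA.of_le hz).trans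
      (hL' α (fun _ => false) x fun n => (hE n _ _).1).leA)
    obtain ⟨e, e1, n, e2⟩ := hA γ' d (d1.trans (hLp x))
    refine ⟨n, fun β m hβ h => ?_⟩
    obtain ⟨u, h1, h2, h3 | h3⟩ := hz' (⟨β, hβ⟩, m, n)
    · exact hU _ _ _ _ _ _ h3 h2
    · exact absurd (hDU _ _ _ _ _ (hD _ _ _ _ h (e1.trans d1)) e2)
        (h3 e (e1.trans ((d2.leA.trans (LeA.of_le h2)).le h1)))
  choose nn hnn using key
  obtain ⟨x, y, hxy, hne⟩ : ∃ x y, nn x = nn y ∧ x ≠ y := by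
    by_contra hh
    have : Function.Injective nn := fun x y h => by_contra fun h' => hh ⟨x, y, h, h'⟩
    have h2 : Countable (ℕ → Bool) := this.countable
    obtain ⟨e, he⟩ := exists_surjective_nat (ℕ → Bool)
    obtain ⟨k, hk⟩ := he fun k => !(e k k)
    simpa using congrFun hk k
  have hex : ∃ k, x k ≠ y k := Function.ne_iff.1 hne
  let k := Nat.find hex
  have hag : Ag k y x := fun i hi => (not_not.1 (Nat.find_min hex hi)).symm
  have h1 := hΓ k _ x (ag_trc k x)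
  have h2 := hΓ k _ y (hag.trans (ag_trc k x))
  have hβ := (hγ' _ ⟨⟨k, fun i => x i⟩, rfl⟩).le
  have h3 := hC _ _ _ _ _ z hβ (hz.trans (hLp _)) (hnn x _ _ hβ (hD _ _ _ _ h1 (hL _ x)))
    (hxy ▸ hnn y _ _ hβ (hD _ _ _ _ h2 (hL _ y)))
  have h4 : x k ≠ y k := Nat.find_spec hex
  have h5 := hv k (trc k fun i => x i)
  revert h3 h4
  cases x k <;> cases y k <;> simp [h5, h5.symm]

end Pool.Agent.H926Z.KH
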