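import Pool.Agent.H926Z.KH.Up

/-! Coding Kurepa trees inside a model, and the data giving a Kurepa tree in the extension. -/

set_option linter.unusedSectionVars false
set_option linter.unreachableTactic false
set_option linter.unusedTactic false

namespace Pool.Agent.H926Z.KH

open CohenE ZFSet WK

variable {M : Set ZFSet.{0}} [hM : Fact (CTM M)]

theorem succ_mem {κ ξ : M} (hκ : IsSuccIn M (om : M).1 κ.1) (h : ξ.1 ∈ κ.1) :
    (msucc ξ).1 ∈ κ.1 :=
  hκ.mem_of_le (isOrdinal_succ (hκ.2.1.mem h)) (le_succ (hκ.2.2.2 _ h))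

theorem kh_of_data {κ lam Φ Sg : M} (hκ : IsSuccIn M (om : M).1 κ.1) (hl : IsSuccIn M κ.1 lam.1)
    (cap : ∀ i γ s : M, i.1 ∈ lam.1 → γ.1 ∈ κ.1 → s.1 ∈ (cnd : M).1 → ∃ t β n : M,
      t.1 ∈ (cnd : M).1 ∧ s.1 ⊆ t.1 ∧ β.1 ∈ (msucc γ).1 ∧ n.1 ∈ (om : M).1 ∧
      ∀ t' ξ : M, t'.1 ∈ (cnd : M).1 → t.1 ⊆ t'.1 → ξ.1 ∈ γ.1 →
        ((mpair i (mpair t' ξ)).1 ∈ Φ.1 ↔ (mpair (mpair β n) (mpair t' ξ)).1 ∈ Sg.1))
    (sep : ∀ i j : M, i.1 ∈ lam.1 → j.1 ∈ lam.1 → i ≠ j → ∃ ξ : M, ξ.1 ∈ κ.1 ∧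
      ∀ t : M, t.1 ∈ (cnd : M).1 →
        (mpair i (mpair t ξ)).1 ∈ Φ.1 ∧ ¬ (mpair j (mpair t ξ)).1 ∈ Φ.1)
    (x : XM M) : KH (Ext M x.1) := by
  let V : M → M → XM M → Prop := fun i ξ y => ∃ s : M, Seg s y ∧
    ∀ t : M, t.1 ∈ (cnd : M).1 → s.1 ⊆ t.1 → (mpair i (mpair t ξ)).1 ∈ Φ.1
  have hV : FF M (fun (p : M × M) y => V p.1 p.2 y) := by
    simp only [V]
    repeat' (first | with_reducible apply FF.not | with_reducible apply FF.and | with_reducible apply FF.or | with_reducible apply FF.iff | with_reducible apply FF.ex | with_reducible apply FF.all | with_reducible apply FF.imp | with_reducible apply FF.seg | with_reducible apply FF.opn | with_reducible apply FF.const | with_reducible apply tmem | with_reducible apply teq | with_reducible apply Tm.pair | with_reducible apply Tm.val | with_reducible apply Tm.gnd | with_reducible apply D.not | with_reducible apply D.and | with_reducible apply D.or | with_reducible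 apply D.iff | with_reducible apply D.ex | with_reducible apply D.all | with_reducible apply D.imp | with_reducible apply D.subset | with_reducible apply D.mem | with_reducible apply D.eq | with_reducible apply F.pair | with_reducible apply F.up | with_reducible apply F.succ  | with_reducible exact F.const _ | exact F.var 0 | exact F.var 1 | exact F.var 2 | exact F.var 3 | exact F.var 4 | exact F.var 5 | exact F.var 6 | exact F.var 7 | exact F.var 8 | exact F.var 9 | exact F.var 10 | exact F.var 11 | exact F.var 12 | exact F.var 13)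
  let P : M → M → M → M → Prop := fun i γ c s => ∀ t ξ : M, t.1 ∈ (cnd : M).1 → s.1 ⊆ t.1 →
    ξ.1 ∈ γ.1 → ((mpair i (mpair t ξ)).1 ∈ Φ.1 ↔ (mpair c (mpair t ξ)).1 ∈ Sg.1)
  have hP : D M (fun p : ((M × M) × M) × M => P p.1.1.1 p.1.1.2 p.1.2 p.2) := by
    simp only [P]
    repeat' (first | with_reducible apply D.not | with_reducible apply D.and | with_reducible apply D.or | with_reducible apply D.iff | with_reducible apply D.ex | with_reducible apply D.all | with_reducible apply D.imp | with_reducible apply D.subset | with_reducible apply D.mem | with_reducible apply D.eq | with_reducible apply F.pair | with_reducible apply F.up | with_reducible apply F.succ  | with_reducible exact F.const _ | exact F.var 0 | exact F.var 1 | exact F.var 2 | exact F.var 3 | exact F.var 4 | exact F.var 5 | exact F.var 6 | exact F.var 7 | exact F.var 8 | exact F.var 9 | exact F.var 10 | exact F.var 11 | exact F.var 12 | exact F.var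 13)
  have key : ∀ i j γ c ξ : M, ξ.1 ∈ γ.1 → (∃ s : M, Seg s x ∧ P i γ c s) →
      (∃ s : M, Seg s x ∧ P j γ c s) → V i ξ x → V j ξ x := by
    rintro i j γ c ξ hξ ⟨s1, a1, a2⟩ ⟨s2, b1, b2⟩ ⟨s, c1, c2⟩
    obtain ⟨u, u1, u2, u3⟩ := a1.common b1
    obtain ⟨w, w1, w2, w3⟩ := u1.common c1
    exact ⟨w, w1, fun t ht h => (b2 t ξ ht (fun _ h' => h (w2 (u3 h'))) hξ).2
      ((a2 t ξ ht (fun _ h' => h (w2 (u2 h'))) hξ).1 (c2 t ht fun _ h' => h (w3 h')))⟩
  refine kh_up hκ hl (S := fun i j γ y => ∀ ξ : M, ξ.1 ∈ γ.1 → (V i ξ y ↔ V j ξ y))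
    (C := fun i γ c y => ∃ s : M, Seg s y ∧ P i γ c s) (by repeat' (first | with_reducible apply ffapp2 hV | with_reducible apply FF.not | with_reducible apply FF.and | with_reducible apply FF.or | with_reducible apply FF.iff | with_reducible apply FF.ex | with_reducible apply FF.all | with_reducible apply FF.imp | with_reducible apply FF.seg | with_reducible apply FF.opn | with_reducible apply FF.const | with_reducible apply tmem | with_reducible apply teq | with_reducible apply Tm.pair | with_reducible apply Tm.val | with_reducible apply Tm.gnd | with_reducible apply D.not | with_reducible apply D.and | with_reducible apply D.or | with_reducible apply D.iff | with_reducible apply D.ex | with_reducible apply D.all | with_reducible apply D.imp | with_reducible apply D.subset | with_reducible apply D.mem | with_reducible apply D.eq | with_reducible apply F.pair | with_reducible apply F.up | with_reducible apply F.succ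  | with_reducible exact F.const _ | exact F.var 0 | exact F.var 1 | exact F.var 2 | exact F.var 3 | exact F.var 4 | exact F.var 5 | exact F.var 6 | exact F.var 7 | exact F.var 8 | exact F.var 9 | exact F.var 10 | exact F.var 11 | exact F.var 12 | exact F.var 13)) (by repeat' (first | with_reducible apply app4 hP | with_reducible apply FF.not | with_reducible apply FF.and | with_reducible apply FF.or | with_reducible apply FF.iff | with_reducible apply FF.ex | with_reducible apply FF.all | with_reducible apply FF.imp | with_reducible apply FF.seg | with_reducible apply FF.opn | with_reducible apply FF.const | with_reducible apply tmem | with_reducible apply teq | with_reducible apply Tm.pair | with_reducible apply Tm.val | with_reducible apply Tm.gnd | with_reducible apply D.not | with_reducible apply D.and | with_reducible apply D.or | with_reducible apply D.iff | with_reducible apply D.ex | with_reducible apply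 D.all | with_reducible apply D.imp | with_reducible apply D.subset | with_reducible apply D.mem | with_reducible apply D.eq | with_reducible apply F.pair | with_reducible apply F.up | with_reducible apply F.succ  | with_reducible exact F.const _ | exact F.var 0 | exact F.var 1 | exact F.var 2 | exact F.var 3 | exact F.var 4 | exact F.var 5 | exact F.var 6 | exact F.var 7 | exact F.var 8 | exact F.var 9 | exact F.var 10 | exact F.var 11 | exact F.var 12 | exact F.var 13)) x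
    (fun _ _ _ _ => Iff.rfl) (fun _ _ _ h ξ hξ => (h ξ hξ).symm)
    (fun _ _ _ _ h h' ξ hξ => (h ξ hξ).trans (h' ξ hξ))
    (fun _ _ _ _ hγ hγ' h ξ hξ => h ξ ((hκ.2.1.mem hγ).mem_trans hξ hγ')) (fun γ hγ => ?_)
    (fun i j γ c h h' ξ hξ => ⟨key i j γ c ξ hξ h h', key j i γ c ξ hξ h' h⟩)
    (fun i j hi hj hne => ?_)
  · refine ⟨mprod (msucc γ) om, ((le_succ (hκ.2.2.2 _ hγ)).prod
      (le_of_subset fun _ h => h)).trans om_prod, fun i hi => ?_⟩
    obtain ⟨A, hA⟩ := sep1 (Q := fun s => ∃ c : M, c.1 ∈ (mprod (msucc γ) om).1 ∧ P i γ c s)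
      (by repeat' (first | with_reducible apply app4 hP | with_reducible apply D.not | with_reducible apply D.and | with_reducible apply D.or | with_reducible apply D.iff | with_reducible apply D.ex | with_reducible apply D.all | with_reducible apply D.imp | with_reducible apply D.subset | with_reducible apply D.mem | with_reducible apply D.eq | with_reducible apply F.pair | with_reducible apply F.up | with_reducible apply F.succ  | with_reducible exact F.const _ | exact F.var 0 | exact F.var 1 | exact F.var 2 | exact F.var 3 | exact F.var 4 | exact F.var 5 | exact F.var 6 | exact F.var 7 | exact F.var 8 | exact F.var 9 | exact F.var 10 | exact F.var 11 | exact F.var 12 | exact F.var 13)) cnd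
    obtain ⟨s, hs, hs'⟩ := meet (A := A) (fun s hs => (mem_cnd s).1 ((hA s).1 hs).1)
      (fun s hs => by
        obtain ⟨t, β, n, h1, h2, h3, h4, h5⟩ := cap i γ s hi hγ ((mem_cnd s).2 hs)
        exact ⟨t, (hA t).2 ⟨h1, mpair β n, (pair_mem_mprod _ _ _ _).2 ⟨h3, h4⟩, h5⟩, h2⟩) x
    obtain ⟨-, c, h1, h2⟩ := (hA s).1 hs
    exact ⟨c, h1, s, hs', h2⟩
  · obtain ⟨ξ, hξ, h⟩ := sep i j hi hj hne
    refine ⟨msucc ξ, succ_mem hκ hξ, fun hh => ?_⟩
    obtain ⟨s, h1, h2⟩ := (hh ξ (ZFSet.mem_insert _ _)).1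
      ⟨memp, seg_memp x, fun t ht _ => (h t ht).1⟩
    exact (h s h1.mem_cnd).2 (h2 s h1.mem_cnd fun _ h => h)

/-- `Z` codes `lam` many distinct branches through a tree with levels `ω` -/
def ZP (κ lam Z : ZFSet.{0}) : Prop :=
  (∀ ξ ∈ lam, ∀ γ ∈ κ, ∃ n, pair ξ (pair γ (nat n)) ∈ Z) ∧
  (∀ ξ ∈ lam, ∀ η ∈ lam, ∀ β ∈ κ, ∀ γ ∈ κ, β ⊆ γ → ∀ n m m', pair ξ (pair γ (nat n)) ∈ Z →
    pair η (pair γ (nat n)) ∈ Z → pair ξ (pair β (nat m)) ∈ Z → pair η (pair β (nat m')) ∈ Z →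
    m = m') ∧
  ∀ ξ ∈ lam, ∀ η ∈ lam, ξ ≠ η → ∃ γ ∈ κ, ∃ n m, n ≠ m ∧ pair ξ (pair γ (nat n)) ∈ Z ∧
    pair η (pair γ (nat m)) ∈ Z

theorem mkZ {κ lam T : M} {V : M → M → M → Prop}
    (hV : D M (fun p : (M × M) × M => V p.1.1 p.1.2 p.2))
    (tot : ∀ ξ γ : M, ξ.1 ∈ lam.1 → γ.1 ∈ κ.1 → ∃ t : M, t.1 ∈ T.1 ∧ V ξ γ t)
    (ctb : ∀ γ : M, γ.1 ∈ κ.1 → ∃ L : M, LeIn M L.1 (om : M).1 ∧
      ∀ ξ t : M, ξ.1 ∈ lam.1 → V ξ γ t → t.1 ∈ L.1)
    (coh : ∀ ξ η β γ t u u' : M, ξ.1 ∈ lam.1 → η.1 ∈ lam.1 → β.1 ∈ κ.1 → γ.1 ∈ κ.1 → β.1 ⊆ γ.1 →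
      V ξ γ t → V η γ t → V ξ β u → V η β u' → u = u')
    (dif : ∀ ξ η : M, ξ.1 ∈ lam.1 → η.1 ∈ lam.1 → ξ ≠ η → ∃ γ : M, γ.1 ∈ κ.1 ∧
      ∀ t : M, V ξ γ t → ¬ V η γ t) : ∃ Z ∈ M, ZP κ.1 lam.1 Z := by
  obtain ⟨W, hW⟩ := exists_pow (mprod T (om : M))
  obtain ⟨e, he, he'⟩ := exists_fn (A := κ) (B := W) (Q := fun γ g =>
    (∀ ξ t : M, ξ.1 ∈ lam.1 → t.1 ∈ T.1 → V ξ γ t → ∃ n : M, n.1 ∈ (om : M).1 ∧
      (mpair t n).1 ∈ g.1) ∧
    (∀ t t' n : M, (mpair t n).1 ∈ g.1 → (mpair t' n).1 ∈ g.1 → t = t') ∧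
    ∀ t n n' : M, (mpair t n).1 ∈ g.1 → (mpair t n').1 ∈ g.1 → n = n') (by repeat' (first | with_reducible apply app3 hV | with_reducible apply D.not | with_reducible apply D.and | with_reducible apply D.or | with_reducible apply D.iff | with_reducible apply D.ex | with_reducible apply D.all | with_reducible apply D.imp | with_reducible apply D.subset | with_reducible apply D.mem | with_reducible apply D.eq | with_reducible apply F.pair | with_reducible apply F.up | with_reducible apply F.succ  | with_reducible exact F.const _ | exact F.var 0 | exact F.var 1 | exact F.var 2 | exact F.var 3 | exact F.var 4 | exact F.var 5 | exact F.var 6 | exact F.var 7 | exact F.var 8 | exact F.var 9 | exact F.var 10 | exact F.var 11 | exact F.var 12 | exact F.var 13))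
    (fun γ hγ => by
      obtain ⟨L, ⟨f, hf, f1, f2⟩, hL⟩ := ctb γ hγ
      obtain ⟨g, hg⟩ := sep1 (Q := fun z => z.1 ∈ (⟨f, hf⟩ : M).1) (by repeat' (first | with_reducible apply D.not | with_reducible apply D.and | with_reducible apply D.or | with_reducible apply D.iff | with_reducible apply D.ex | with_reducible apply D.all | with_reducible apply D.imp | with_reducible apply D.subset | with_reducible apply D.mem | with_reducible apply D.eq | with_reducible apply F.pair | with_reducible apply F.up | with_reducible apply F.succ  | with_reducible exact F.const _ | exact F.var 0 | exact F.var 1 | exact F.var 2 | exact F.var 3 | exact F.var 4 | exact F.var 5 | exact F.var 6 | exact F.var 7 | exact F.var 8 | exact F.var 9 | exact F.var 10 | exact F.var 11 | exact F.var 12 | exact F.var 13)) (mprod T om)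
      refine ⟨g, (hW g).2 fun z hz => ((hg (el g hz)).1 hz).1, fun ξ t h1 h2 h3 => ?_,
        fun t t' n h h' => Subtype.ext (f2 _ _ _ ((hg _).1 h).2 ((hg _).1 h').2),
        fun t n n' h h' => Subtype.ext (func_uniq f1 ((hg _).1 h).2 ((hg _).1 h').2)⟩
      obtain ⟨n, hn, -⟩ := f1.2 _ (hL ξ t h1 h3)
      have h4 := (func_mem f1 hn).2
      exact ⟨el om h4, h4, (hg _).2 ⟨(pair_mem_mprod _ _ _ _).2 ⟨h2, h4⟩, hn⟩⟩)
  obtain ⟨Z, -, hZ⟩ := sep2 (Q := fun ξ z => ∃ γ n g t : M, z = mpair γ n ∧ (mpair γ g).1 ∈ e.1 ∧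
    V ξ γ t ∧ (mpair t n).1 ∈ g.1) (by repeat' (first | with_reducible apply app3 hV | with_reducible apply D.not | with_reducible apply D.and | with_reducible apply D.or | with_reducible apply D.iff | with_reducible apply D.ex | with_reducible apply D.all | with_reducible apply D.imp | with_reducible apply D.subset | with_reducible apply D.mem | with_reducible apply D.eq | with_reducible apply F.pair | with_reducible apply F.up | with_reducible apply F.succ  | with_reducible exact F.const _ | exact F.var 0 | exact F.var 1 | exact F.var 2 | exact F.var 3 | exact F.var 4 | exact F.var 5 | exact F.var 6 | exact F.var 7 | exact F.var 8 | exact F.var 9 | exact F.var 10 | exact F.var 11 | exact F.var 12 | exact F.var 13)) lam (mprod κ om)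
  have hg : ∀ γ : M, γ.1 ∈ κ.1 → ∃ g : M, (mpair γ g).1 ∈ e.1 := fun γ hγ => by
    obtain ⟨g, hg, -⟩ := he.2 _ hγ
    exact ⟨el W (func_mem he hg).2, hg⟩
  have hZi : ∀ ξ γ : M, ξ.1 ∈ lam.1 → γ.1 ∈ κ.1 → ∀ g : M, (mpair γ g).1 ∈ e.1 → ∃ n, ∃ t : M,
      V ξ γ t ∧ (mpair t (mnat n)).1 ∈ g.1 ∧ pair ξ.1 (pair γ.1 (nat n)) ∈ Z.1 := by
    intro ξ γ hξ hγ g hg
    obtain ⟨t, h1, h2⟩ := tot ξ γ hξ hγ
    obtain ⟨n, h3, h4⟩ := (he' γ g hg).1 ξ t hξ h1 h2
    obtain ⟨k, rfl⟩ := (mem_om n).1 h3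
    exact ⟨k, t, h2, h4, (hZ ξ (mpair γ (mnat k))).2 ⟨hξ, (pair_mem_mprod _ _ _ _).2 ⟨hγ, h3⟩,
      γ, _, g, t, rfl, hg, h2, h4⟩⟩
  have hZd : ∀ (ξ γ g : M) (n : ℕ), (mpair γ g).1 ∈ e.1 → pair ξ.1 (pair γ.1 (nat n)) ∈ Z.1 →
      ∃ t : M, V ξ γ t ∧ (mpair t (mnat n)).1 ∈ g.1 := by
    intro ξ γ g n hg h
    obtain ⟨-, -, γ', n', g', t, e1, h1, h2, h3⟩ := (hZ ξ (mpair γ (mnat n))).1 h
    obtain ⟨rfl, rfl⟩ := mpair_inj.1 e1
    obtain rfl : g = g' := Subtype.ext (func_uniq he hg h1)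
    exact ⟨t, h2, h3⟩
  refine ⟨Z, Z.2, fun ξ hξ γ hγ => ?_, fun ξ hξ η hη β hβ γ hγ hs n m m' a1 a2 a3 a4 => ?_,
    fun ξ hξ η hη hne => ?_⟩
  · obtain ⟨g, h⟩ := hg (el κ hγ) hγ
    obtain ⟨n, -, -, -, h⟩ := hZi (el lam hξ) (el κ hγ) hξ hγ g h
    exact ⟨n, h⟩
  · obtain ⟨g, h⟩ := hg (el κ hγ) hγ
    obtain ⟨g', h'⟩ := hg (el κ hβ) hβ
    obtain ⟨t, b1, b2⟩ := hZd (el lam hξ) _ g n h a1
    obtain ⟨t', c1, c2⟩ := hZd (el lam hη) _ g n h a2
    obtain ⟨u, d1, d2⟩ := hZd (el lam hξ) _ g' m h' a3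
    obtain ⟨u', e1, e2⟩ := hZd (el lam hη) _ g' m' h' a4
    obtain rfl := (he' _ g h).2.1 _ _ _ b2 c2
    obtain rfl := coh _ _ _ _ _ _ _ hξ hη hβ hγ hs b1 c1 d1 e1
    exact mnat_inj ((he' _ g' h').2.2 _ _ _ d2 e2)
  · obtain ⟨γ, hγ, h1⟩ := dif (el lam hξ) (el lam hη) hξ hη fun e => hne (congrArg Subtype.val e)
    obtain ⟨g, h⟩ := hg γ hγ
    obtain ⟨n, t, a1, a2, a3⟩ := hZi (el lam hξ) γ hξ hγ g h
    obtain ⟨m, t', b1, b2, b3⟩ := hZi (el lam hη) γ hη hγ g h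
    refine ⟨γ, hγ, n, m, ?_, a3, b3⟩
    rintro rfl
    obtain rfl := (he' _ g h).2.1 _ _ _ a2 b2
    exact h1 t a1 b1

theorem z_of_inj {κ lam : M} (hκ : IsSuccIn M (om : M).1 κ.1) (h : LeIn M lam.1 κ.1) :
    ∃ Z ∈ M, ZP κ.1 lam.1 Z := by
  obtain ⟨f, hf, f1, f2⟩ := h
  lift f to M using hf
  have fu : ∀ ξ c c' : M, (mpair ξ c).1 ∈ f.1 → (mpair ξ c').1 ∈ f.1 → c = c' :=
    fun ξ c c' h h' => Subtype.ext (func_uniq f1 h h')
  have ft : ∀ ξ : M, ξ.1 ∈ lam.1 → ∃ c : M, c.1 ∈ κ.1 ∧ (mpair ξ c).1 ∈ f.1 := fun ξ hξ => by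
    obtain ⟨c, hc, -⟩ := f1.2 _ hξ
    exact ⟨el κ (func_mem f1 hc).2, (func_mem f1 hc).2, hc⟩
  refine mkZ (T := κ) (V := fun ξ γ t => ∃ c : M, (mpair ξ c).1 ∈ f.1 ∧
    ((c.1 ∈ γ.1 ∧ t = c) ∨ (¬ c.1 ∈ γ.1 ∧ t = γ))) (by repeat' (first | with_reducible apply D.not | with_reducible apply D.and | with_reducible apply D.or | with_reducible apply D.iff | with_reducible apply D.ex | with_reducible apply D.all | with_reducible apply D.imp | with_reducible apply D.subset | with_reducible apply D.mem | with_reducible apply D.eq | with_reducible apply F.pair | with_reducible apply F.up | with_reducible apply F.succ  | with_reducible exact F.const _ | exact F.var 0 | exact F.var 1 | exact F.var 2 | exact F.var 3 | exact F.var 4 | exact F.var 5 | exact F.var 6 | exact F.var 7 | exact F.var 8 | exact F.var 9 | exact F.var 10 | exact F.var 11 | exact F.var 12 | exact F.var 13)) (fun ξ γ hξ hγ => ?_)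
    (fun γ hγ => ⟨msucc γ, le_succ (hκ.2.2.2 _ hγ), ?_⟩) ?_ (fun ξ η hξ hη hne => ?_)
  · obtain ⟨c, h1, h2⟩ := ft ξ hξ
    by_cases h : c.1 ∈ γ.1
    · exact ⟨c, h1, c, h2, Or.inl ⟨h, rfl⟩⟩
    · exact ⟨γ, hγ, c, h2, Or.inr ⟨h, rfl⟩⟩
  · rintro ξ t - ⟨c, -, ⟨h, rfl⟩ | ⟨-, rfl⟩⟩
    · exact ZFSet.mem_insert_of_mem _ h
    · exact ZFSet.mem_insert _ _
  · rintro ξ η β γ t u u' - - - - hs ⟨c, a1, a2⟩ ⟨c', b1, b2⟩ ⟨d, c1, c2⟩ ⟨d', d1, d2⟩
    obtain rfl := fu _ _ _ a1 c1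
    obtain rfl := fu _ _ _ b1 d1
    rcases a2 with ⟨a2, rfl⟩ | ⟨a2, rfl⟩ <;> rcases b2 with ⟨b2, e⟩ | ⟨b2, e⟩
    · subst e
      rcases c2 with ⟨c2, rfl⟩ | ⟨c2, rfl⟩ <;> rcases d2 with ⟨d2, rfl⟩ | ⟨d2, rfl⟩
      · rfl
      · exact absurd c2 d2
      · exact absurd d2 c2
      · rfl
    · subst e; exact absurd a2 (mem_irrefl _)
    · subst e; exact absurd b2 (mem_irrefl _)
    · rcases c2 with ⟨c2, rfl⟩ | ⟨c2, rfl⟩ <;> rcases d2 with ⟨d2, rfl⟩ | ⟨d2, rfl⟩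
      · exact absurd (hs c2) a2
      · exact absurd (hs c2) a2
      · exact absurd (hs d2) b2
      · rfl
  · obtain ⟨c, h1, h2⟩ := ft ξ hξ
    obtain ⟨c', h1', h2'⟩ := ft η hη
    obtain ⟨γ, hγ, h3, h4⟩ : ∃ γ : M, γ.1 ∈ κ.1 ∧ c.1 ∈ γ.1 ∧ c'.1 ∈ γ.1 := by
      rcases (hκ.2.1.mem h1).mem_trichotomous (hκ.2.1.mem h1') with e | e | e
      · exact ⟨msucc c', succ_mem hκ h1', ZFSet.mem_insert_of_mem _ e, ZFSet.mem_insert _ _⟩
      · exact ⟨msucc c', succ_mem hκ h1', e ▸ ZFSet.mem_insert _ _, ZFSet.mem_insert _ _⟩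
      · exact ⟨msucc c, succ_mem hκ h1, ZFSet.mem_insert _ _, ZFSet.mem_insert_of_mem _ e⟩
    refine ⟨γ, hγ, ?_⟩
    rintro t ⟨d, a1, a2⟩ ⟨d', b1, b2⟩
    obtain rfl := fu _ _ _ a1 h2
    obtain rfl := fu _ _ _ b1 h2'
    obtain rfl := (a2.resolve_right fun h => h.1 h3).2
    obtain rfl := (b2.resolve_right fun h => h.1 h4).2
    exact hne (Subtype.ext (f2 _ _ _ a1 b1))

/-- the level predicate, as a formula -/
def LvM (R t δ : M) : Prop := ∃ f : M,
  (∀ β : M, β.1 ∈ δ.1 → ∃ u : M, (mpair β u).1 ∈ f.1) ∧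
  (∀ u : M, (mpair u t).1 ∈ R.1 ↔ ∃ β : M, β.1 ∈ δ.1 ∧ (mpair β u).1 ∈ f.1) ∧
  (∀ β β' u v : M, β.1 ∈ δ.1 → β'.1 ∈ δ.1 → (mpair β u).1 ∈ f.1 → (mpair β' v).1 ∈ f.1 →
    (β.1 ∈ β'.1 ↔ (mpair u v).1 ∈ R.1)) ∧
  ∀ β u v : M, β.1 ∈ δ.1 → (mpair β u).1 ∈ f.1 → (mpair β v).1 ∈ f.1 → u = v

theorem d_lv (R : M) : D M (fun p : M × M => LvM R p.1 p.2) := by
  unfold LvM
  repeat' (first | with_reducible apply D.not | with_reducible apply D.and | with_reducible apply D.or | with_reducible apply D.iff | with_reducible apply D.ex | with_reducible apply D.all | with_reducible apply D.imp | with_reducible apply D.subset | with_reducible apply D.mem | with_reducible apply D.eq | with_reducible apply F.pair | with_reducible apply F.up | with_reducible apply F.succ  | with_reducible exact F.const _ | exact F.var 0 | exact F.var 1 | exact F.var 2 | exact F.var 3 | exact F.var 4 | exact F.var 5 | exact F.var 6 | exact F.var 7 | exact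 F.var 8 | exact F.var 9 | exact F.var 10 | exact F.var 11 | exact F.var 12 | exact F.var 13)

theorem lvM_iff (R t δ : M) : LvM R t δ ↔ LvW M R.1 t.1 δ.1 := by
  constructor
  · rintro ⟨f, h1, h2, h3, h4⟩
    have nm : ∀ β u, pair β u ∈ f.1 → ∃ τ : M, u = τ.1 := fun β u h =>
      ⟨⟨u, snd_memM (hM.out.trans _ f.2 _ h)⟩, rfl⟩
    refine ⟨_, f.2, fun β hβ => ?_, fun u => ⟨fun h => ?_, ?_⟩,
      fun β hβ β' hβ' u v h h' => ?_, fun β hβ u v h h' => ?_⟩
    · obtain ⟨u, hu⟩ := h1 (el δ hβ) hβ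
      exact ⟨_, hu⟩
    · obtain ⟨β, h⟩ := (h2 ⟨u, fst_memM (hM.out.trans _ R.2 _ h)⟩).1 h
      exact ⟨β, h⟩
    · rintro ⟨β, hβ, h⟩
      obtain ⟨τ, rfl⟩ := nm _ _ h
      exact (h2 τ).2 ⟨el δ hβ, hβ, h⟩
    · obtain ⟨τ, rfl⟩ := nm _ _ h
      obtain ⟨τ', rfl⟩ := nm _ _ h'
      exact h3 (el δ hβ) (el δ hβ') τ τ' hβ hβ' h h'
    · obtain ⟨τ, rfl⟩ := nm _ _ h
      obtain ⟨τ', rfl⟩ := nm _ _ h'
      exact congrArg Subtype.val (h4 (el δ hβ) τ τ' hβ h h')
  · rintro ⟨f, hf, h1, h2, h3, h4⟩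
    refine ⟨⟨f, hf⟩, fun β hβ => ?_, fun u => (h2 _).trans ⟨fun ⟨β, hβ, h⟩ => ⟨el δ hβ, hβ, h⟩,
      fun ⟨β, hβ, h⟩ => ⟨β, hβ, h⟩⟩, fun β β' u v hβ hβ' => h3 _ hβ _ hβ' _ _,
      fun β u v hβ h h' => Subtype.ext (h4 _ hβ _ _ h h')⟩
    obtain ⟨u, hu⟩ := h1 _ hβ
    exact ⟨⟨u, snd_memM (hM.out.trans _ hf _ hu)⟩, hu⟩

theorem z_of_kh {κ lam : M} (hκ : IsSuccIn M (om : M).1 κ.1) (lo : lam.1.IsOrdinal)
    (hl : ∀ α ∈ lam.1, LeIn M α κ.1) (h : KH M) : ∃ Z ∈ M, ZP κ.1 lam.1 Z := by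
  obtain ⟨κ', lam', hκ', hl', T, hT, R, hR, hpo, hht, -, hlev, B, hB, hbr, g, hg, hg1, hg2⟩ := h
  have ko := hκ.2.1
  rw [← om_eq (M := M)] at hκ' hlev
  obtain rfl : κ.1 = κ' := by
    rcases ko.mem_trichotomous hκ'.2.1 with e | e | e
    · exact absurd (hκ'.2.2.2 _ e) hκ.2.2.1
    · exact e
    · exact absurd (hκ.2.2.2 _ e) hκ'.2.2.1
  have hsub : lam.1 ⊆ lam' := (hl'.2.1.notMem_iff_subset lo).1 fun e => hl'.2.2.1 (hl _ e)
  lift T to M using hT
  lift R to M using hR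
  lift g to M using hg
  have hd := d_lv R
  have same : ∀ c, BranchIn M T.1 R.1 κ.1 c → ∀ w ∈ c, ∀ v ∈ c, ∀ γ ∈ κ.1,
      LvW M R.1 w γ → LvW M R.1 v γ → w = v := by
    intro c hc w hw v hv γ hγ h1 h2
    rcases hc.2.1 w hw v hv with e | e | e
    · exact e
    · exact h2.eq hpo (ko.mem hγ) (ko.mem hγ) (Or.inr e) (Or.inl rfl) h1 h2
    · exact h1.eq hpo (ko.mem hγ) (ko.mem hγ) (Or.inl rfl) (Or.inr e) h1 h2
  have gt : ∀ ξ : M, ξ.1 ∈ lam.1 → ∃ b : M, (mpair ξ b).1 ∈ g.1 := fun ξ hξ => by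
    obtain ⟨b, hb, -⟩ := hg1.2 _ (hsub hξ)
    exact ⟨⟨b, snd_memM (hM.out.trans _ g.2 _ hb)⟩, hb⟩
  have gb : ∀ ξ b : M, (mpair ξ b).1 ∈ g.1 → BranchIn M T.1 R.1 κ.1 b.1 := fun ξ b h =>
    hbr _ (func_mem hg1 h).2
  refine mkZ (T := T) (V := fun ξ γ t => ∃ b : M, (mpair ξ b).1 ∈ g.1 ∧ t.1 ∈ b.1 ∧ LvM R t γ)
    (by repeat' (first | with_reducible apply app2 hd | with_reducible apply D.not | with_reducible apply D.and | with_reducible apply D.or | with_reducible apply D.iff | with_reducible apply D.ex | with_reducible apply D.all | with_reducible apply D.imp | with_reducible apply D.subset | with_reducible apply D.mem | with_reducible apply D.eq | with_reducible apply F.pair | with_reducible apply F.up | with_reducible apply F.succ  | with_reducible exact F.const _ | exact F.var 0 | exact F.var 1 | exact F.var 2 | exact F.var 3 | exact F.var 4 | exact F.var 5 | exact F.var 6 | exact F.var 7 | exact F.var 8 | exact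 F.var 9 | exact F.var 10 | exact F.var 11 | exact F.var 12 | exact F.var 13)) (fun ξ γ hξ hγ => ?_) (fun γ hγ => ?_) ?_ (fun ξ η hξ hη hne => ?_)
  · obtain ⟨b, hb⟩ := gt ξ hξ
    obtain ⟨t, h1, h2⟩ := (gb _ _ hb).2.2 _ hγ
    exact ⟨el b h1, (gb _ _ hb).1 h1, b, hb, h1, (lvM_iff _ _ _).2 h2.lvW⟩
  · obtain ⟨L, hL, h1, h2⟩ := hlev _ hγ
    refine ⟨⟨L, hL⟩, h2, ?_⟩
    rintro ξ t - ⟨b, a1, a2, a3⟩
    have a4 := (gb _ _ a1).1 a2
    obtain ⟨δ, -, a5⟩ := hht _ a4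
    obtain ⟨f1, -, b1⟩ := a5.lvW
    obtain ⟨f2, -, b2⟩ := (lvM_iff _ _ _).1 a3
    exact (h1 _).2 ⟨a4, Lvx.uniq hpo a5.1 (ko.mem hγ) b1 b2 ▸ a5⟩
  · rintro ξ η β γ t u u' - - hβ hγ hs ⟨b, a1, a2, a3⟩ ⟨b', b1, b2, -⟩ ⟨c, c1, c2, c3⟩
      ⟨c', d1, d2, d3⟩
    rw [func_uniq hg1 c1 a1] at c2
    rw [func_uniq hg1 d1 b1] at d2
    rw [lvM_iff] at a3 c3 d3
    obtain ⟨v, h1, h2⟩ := a3.below hpo (ko.mem hγ) (ko.mem hβ) hs
    exact Subtype.ext ((same _ (gb _ _ a1) _ c2 _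
      ((gb _ _ a1).mem hpo ko a2 a3 (ko.mem hγ) hβ h1 h2) _ hβ c3 h2).trans (same _ (gb _ _ b1) _
      ((gb _ _ b1).mem hpo ko b2 a3 (ko.mem hγ) hβ h1 h2) _ d2 _ hβ h2 d3))
  · obtain ⟨b, hb⟩ := gt ξ hξ
    obtain ⟨b', hb'⟩ := gt η hη
    have hbb : b.1 ≠ b'.1 := fun e => hne (Subtype.ext (hg2 ξ.1 η.1 b.1 hb (e ▸ hb')))
    obtain ⟨w, hw, hw'⟩ : ∃ w, (w ∈ b.1 ∨ w ∈ b'.1) ∧ ¬ (w ∈ b.1 ∧ w ∈ b'.1) := by
      by_contra hcon
      push Not at hcon
      exact hbb (ZFSet.ext fun w => ⟨fun h => (hcon w (Or.inl h)).2, fun h => (hcon w (Or.inr h)).1⟩)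
    obtain ⟨γ, hγ, hwγ⟩ := hht w (hw.elim (fun h => (gb _ _ hb).1 h) fun h => (gb _ _ hb').1 h)
    refine ⟨el κ hγ, hγ, ?_⟩
    rintro t ⟨c, a1, a2, a3⟩ ⟨c', b1, b2, -⟩
    rw [func_uniq hg1 a1 hb] at a2
    rw [func_uniq hg1 b1 hb'] at b2
    rw [lvM_iff] at a3
    have : w = t.1 := hw.elim (fun h => same _ (gb _ _ hb) w h _ a2 γ hγ hwγ.lvW a3)
      fun h => same _ (gb _ _ hb') w h _ b2 γ hγ hwγ.lvW a3
    exact hw' (this ▸ ⟨a2, b2⟩)

end Pool.Agent.H926Z.KH
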