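import Pool.Agent.H926Z.KH.Inner
import Pool.Agent.H926Z.KH.Count
import Pool.Agent.H30Z.AP.Main

/-! The model: no Kurepa tree, and a Cohen name for a Kurepa tree. -/

set_option linter.unusedSectionVars false
set_option linter.unreachableTactic false
set_option linter.unusedTactic false

namespace Pool.Agent.H926Z.KH

open CohenE ZFSet WK Pool.Agent.H30Z Pool.Agent.H30Z.Forc Cardinal

/-- ordinals as sets -/
noncomputable def ez {o : Ordinal.{0}} (i : o.ToType) : ZFSet.{0} :=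
  (Ordinal.ToType.mk.symm i).1.toZFSet

theorem ez_lt {o : Ordinal.{0}} {i j : o.ToType} : ez i ∈ ez j ↔ i < j := by
  rw [ez, ez, Ordinal.toZFSet_mem_toZFSet_iff, Subtype.coe_lt_coe, OrderIso.lt_iff_lt]

theorem ez_inj {o : Ordinal.{0}} : Function.Injective (ez (o := o)) := fun _ _ h =>
  Ordinal.ToType.mk.symm.injective (Subtype.ext (Ordinal.toZFSet_injective h))

theorem ez_mem {o : Ordinal.{0}} (i : o.ToType) : ez i ∈ o.toZFSet :=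
  Ordinal.toZFSet_mem_toZFSet_iff.2 (Ordinal.ToType.mk.symm i).2

theorem ez_surj {o : Ordinal.{0}} {z : ZFSet.{0}} (h : z ∈ o.toZFSet) : ∃ i : o.ToType, ez i = z := by
  obtain ⟨a, ha, rfl⟩ := Ordinal.mem_toZFSet_iff.1 h
  exact ⟨Ordinal.ToType.mk ⟨a, ha⟩, by simp [ez]⟩

/-- strings as sets -/
noncomputable def cs (l : List Bool) : ZFSet.{0} := seg (fun i => l.getD i false) l.length

theorem cs_subset {l l' : List Bool} : cs l ⊆ cs l' ↔ l <+: l' := by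
  rw [cs, cs, seg_subset]
  constructor
  · rintro ⟨h1, h2⟩
    rw [List.prefix_iff_eq_take]
    refine List.ext_getElem (by simp [h1]) fun i hi hi' => ?_
    have := h2 i hi
    rw [List.getD_eq_getElem _ _ hi, List.getD_eq_getElem _ _ (by omega)] at this
    rw [this, List.getElem_take]
  · rintro ⟨u, rfl⟩
    exact ⟨by simp, fun i hi => by rw [List.getD_append _ _ _ _ hi]⟩

theorem cs_inj : Function.Injective cs := fun _ _ h =>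
  (cs_subset.1 h.le).eq_of_length_le (cs_subset.1 h.ge).length_le

theorem cs_cond (l : List Bool) : IsCond (cs l) := ⟨_, _, rfl⟩

theorem cs_surj {s : ZFSet.{0}} (h : IsCond s) : ∃ l, cs l = s := by
  obtain ⟨x, n, rfl⟩ := h
  refine ⟨List.ofFn fun i : Fin n => x i, (seg_eq _ _ _ _).2 ⟨by simp, fun i hi => ?_⟩⟩
  rw [List.getD_eq_getElem _ _ hi]
  simp

section General

variable {P : Type} [Preorder P] [OrderTop P] {N : Set (Nm P)} {G : Set P}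

/-- check names -/
noncomputable def ck (P : Type) [Preorder P] [OrderTop P] (z : ZFSet.{0}) : Nm P := io P (chk z)

theorem ck_inj : Function.Injective (ck P) := by
  intro x y h
  have h1 := congrArg (fun σ => toZF (fg σ)) h
  simpa only [ck, fg_io, toZF_chk] using h1

/-- the collapse -/
noncomputable def pz (N : Set (Nm P)) (z : ZFSet.{0}) : ZFSet.{0} := pi N (chk z)

structure Cl (N : Set (Nm P)) (G : Set P) : Prop where
  pr : Pair N G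
  nrm : ∀ σ ∈ Gr N, ck P (toZF σ) ∈ N
  str : ∀ l, ck P (cs l) ∈ N

theorem Cl.val_ck (h : Cl N G) (z : ZFSet.{0}) : Forc.val N G (ck P z) = pz N z :=
  val_io h.pr.core.filt _

theorem Cl.pz_mem (h : Cl N G) {a : ZFSet.{0}} (ha : ck P a ∈ N) : pz N a ∈ Forc.Ext N G :=
  ⟨_, ha, h.val_ck a⟩

theorem Cl.mem_iff (h : Cl N G) {a b : ZFSet.{0}} (ha : ck P a ∈ N) (hb : ck P b ∈ N) :
    pz N a ∈ pz N b ↔ a ∈ b := by
  rw [pz, pz, h.pr.pi_mem_iff ha hb, toZF_chk, toZF_chk]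

theorem Cl.eq_iff (h : Cl N G) {a b : ZFSet.{0}} (ha : ck P a ∈ N) (hb : ck P b ∈ N) :
    pz N a = pz N b ↔ a = b := by
  rw [pz, pz, h.pr.pi_eq_iff ha hb, toZF_chk, toZF_chk]

theorem Cl.pz_toZF (h : Cl N G) {σ : Nm Unit} (hσ : σ ∈ Gr N) : pz N (toZF σ) = pi N σ := by
  rw [pz, h.pr.pi_eq_iff (h.nrm σ hσ) hσ, toZF_chk]

theorem Cl.elem (h : Cl N G) {w a : ZFSet.{0}} (hw : ck P w ∈ N) (ha : a ∈ pz N w) :
    ∃ z ∈ w, ck P z ∈ N ∧ a = pz N z := by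
  obtain ⟨σ, hσ, rfl⟩ : a ∈ Gnd N := Forc.ext_trans _ ⟨chk w, hw, rfl⟩ a ha
  refine ⟨toZF σ, ?_, h.nrm σ hσ, (h.pz_toZF hσ).symm⟩
  rw [← toZF_chk w]
  exact (h.pr.pi_mem_iff hσ hw).1 ha

theorem Cl.elemO (h : Cl N G) {o : Ordinal.{0}} {a : ZFSet.{0}} (hw : ck P o.toZFSet ∈ N)
    (ha : a ∈ pz N o.toZFSet) : ∃ i : o.ToType, ck P (ez i) ∈ N ∧ a = pz N (ez i) := by
  obtain ⟨z, h1, h2⟩ := h.elem hw ha
  obtain ⟨i, rfl⟩ := ez_surj h1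
  exact ⟨i, h2⟩

theorem toZF_op (a b : ZFSet.{0}) : toZF (opN (chk a) (chk b)) = pair a b := by
  rw [toZF, core_univ.val_op trivial trivial]
  exact congrArg₂ pair (toZF_chk a) (toZF_chk b)

theorem Cl.in_pair (h : Cl N G) {a b : ZFSet.{0}} (ha : ck P a ∈ N) (hb : ck P b ∈ N) :
    ck P (pair a b) ∈ N :=
  toZF_op a b ▸ h.nrm _ (h.pr.ground.op_mem ha hb)

theorem Cl.pz_pair (h : Cl N G) {a b : ZFSet.{0}} (ha : ck P a ∈ N) (hb : ck P b ∈ N) :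
    pz N (pair a b) = pair (pz N a) (pz N b) := by
  rw [← toZF_op, h.pz_toZF (h.pr.ground.op_mem ha hb)]
  exact h.pr.ground.val_op ha hb

theorem Cl.in_nat (h : Cl N G) (n : ℕ) : ck P (nat n) ∈ N :=
  (core_univ.val_nat n : toZF _ = _) ▸ h.nrm _ (h.pr.ground.natm n)

theorem Cl.pz_nat (h : Cl N G) (n : ℕ) : pz N (nat n) = nat n := by
  have e : toZF (natN n) = nat n := core_univ.val_nat n
  exact (congrArg (pz N) e.symm).trans
    ((h.pz_toZF (h.pr.ground.natm n)).trans (h.pr.ground.val_nat n))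

theorem Cl.pz_cs (h : Cl N G) (l : List Bool) : pz N (cs l) = cs l := by
  have key : ∀ y ∈ cs l, ck P y ∈ N ∧ pz N y = y := by
    intro y hy
    obtain ⟨i, -, rfl⟩ := (mem_seg _ _ _).1 hy
    obtain ⟨k, hk⟩ : ∃ k, bit (l.getD i false) = nat k := by
      unfold bit
      split_ifs
      · exact ⟨1, rfl⟩
      · exact ⟨0, rfl⟩
    rw [hk]
    exact ⟨h.in_pair (h.in_nat _) (h.in_nat _),
      by rw [h.pz_pair (h.in_nat _) (h.in_nat _), h.pz_nat, h.pz_nat]⟩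
  ext z
  constructor
  · intro hz
    obtain ⟨y, h1, -, rfl⟩ := h.elem (h.str l) hz
    rw [(key y h1).2]; exact h1
  · intro hz
    rw [← (key z hz).2]
    exact (h.mem_iff (key z hz).1 (h.str l)).2 hz

/-- names of subsets of ground sets -/
noncomputable def relN {X : Type} (c : X → ZFSet.{0}) (H : X → Set P) : Nm P :=
  .mk {y : X × P // y.2 ∈ H y.1} (fun y => ck P (c y.1.1)) (fun y => y.1.2)

theorem Cl.mem_rel (h : Cl N G) {X : Type} {c : X → ZFSet.{0}} (hc : Function.Injective c)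
    (H : X → Set P) {x : X} (hx : ck P (c x) ∈ N) :
    pz N (c x) ∈ Forc.val N G (relN c H) ↔ ∃ p ∈ G, p ∈ H x := by
  rw [Forc.mem_val]
  constructor
  · rintro ⟨⟨⟨y, p⟩, h1⟩, h2, h3, h4⟩
    have h5 : pz N (c x) = pz N (c y) := h4.trans (h.val_ck _)
    obtain rfl := hc ((h.eq_iff hx h2).1 h5)
    exact ⟨p, h3, h1⟩
  · rintro ⟨p, h1, h2⟩
    exact ⟨⟨(x, p), h2⟩, hx, h1, (h.val_ck _).symm⟩

end General

abbrev O1 : Type := (Ordinal.omega 1).ToType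

theorem mk_O1 : #O1 = ℵ₁ := by simp [O1]

instance : Nonempty O1 := by
  rw [← mk_ne_zero_iff, mk_O1]
  exact (aleph_pos 1).ne'

noncomputable instance : OrderBot O1 := WellFoundedLT.toOrderBot O1

theorem ctble_Iic (a : O1) : (Set.Iic a).Countable := by
  rw [← Set.Iio_insert]
  refine Set.Countable.insert _ ?_
  rw [← le_aleph0_iff_set_countable, ← Order.lt_succ_iff, succ_aleph0, ← mk_O1]
  exact mk_Iio_lt a (by simp)

instance : Om1 O1 where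
  cI := ctble_Iic
  bd := fun s hs => by
    by_contra hcon
    have h1 : (⋃ a ∈ s, Set.Iic a) = Set.univ := Set.eq_univ_of_forall fun b => by
      by_contra hb
      exact hcon ⟨b, fun a ha => lt_of_not_ge fun h => hb (Set.mem_biUnion ha h)⟩
    have h2 := hs.biUnion fun a _ => ctble_Iic a
    rw [h1, ← le_aleph0_iff_set_countable, mk_univ, mk_O1] at h2
    exact absurd h2 (not_le.2 aleph0_lt_aleph_one)

theorem inac_of {κ : Cardinal.{0}} (h : κ.IsInaccessible) : Inac O1 κ.ord.ToType where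
  inac := by rw [mk_ord_toType]; exact h
  sI := fun i => mk_Iio_lt i (by simp)
  sO := by
    rw [mk_ord_toType, mk_O1, ← succ_aleph0]
    exact h.isSuccLimit.succ_lt h.aleph0_lt

variable {k : Ordinal.{0}}

abbrev PP (k : Ordinal.{0}) : Type := Cond O1 k.ToType

noncomputable def cF (x : k.ToType × List Bool × O1) : ZFSet.{0} :=
  pair (ez x.1) (pair (cs x.2.1) (ez x.2.2))

noncomputable def cS (x : (O1 × ℕ) × List Bool × O1) : ZFSet.{0} :=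
  pair (pair (ez x.1.1) (nat x.1.2)) (pair (cs x.2.1) (ez x.2.2))

noncomputable def cG (x : k.ToType × k.ToType × O1) : ZFSet.{0} :=
  pair (ez x.1) (pair (ez x.2.1) (ez x.2.2))

theorem cF_inj : Function.Injective (cF (k := k)) := by
  rintro ⟨a, b, c⟩ ⟨a', b', c'⟩ h
  simp only [cF, pair_inj] at h
  rw [ez_inj h.1, cs_inj h.2.1, ez_inj h.2.2]

theorem cS_inj : Function.Injective cS := by
  rintro ⟨⟨a, n⟩, b, c⟩ ⟨⟨a', n'⟩, b', c'⟩ h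
  simp only [cS, pair_inj] at h
  rw [ez_inj h.1.1, nat_inj h.1.2, cs_inj h.2.1, ez_inj h.2.2]

theorem cG_inj : Function.Injective (cG (k := k)) := by
  rintro ⟨a, b, c⟩ ⟨a', b', c'⟩ h
  simp only [cG, pair_inj] at h
  rw [ez_inj h.1, ez_inj h.2.1, ez_inj h.2.2]

noncomputable def nF (k : Ordinal.{0}) : Nm (PP k) :=
  relN cF fun x => {p | x.1 ∈ p.A ∧ p.F x.1 x.2.1 x.2.2}

noncomputable def nS (k : Ordinal.{0}) : Nm (PP k) :=
  relN cS fun x => {p | x.1.1 ≤ p.δ ∧ p.S x.1.1 x.1.2 x.2.1 x.2.2}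

noncomputable def nG (k : Ordinal.{0}) : Nm (PP k) :=
  relN cG fun x => {p | x.1 ∈ p.A ∧ x.2.2 < p.δ ∧ p.g x.1 x.2.2 = x.2.1}

def reqX (k : Ordinal.{0}) : Req (PP k) := fun l q τ => ∀ i i' j : k.ToType,
  lv l 0 = ck _ (ez i) → lv l 1 = ck _ (ez i') → lv l 2 = ck _ (ez j) → j ≤ i →
    i ∈ q.A ∧ i' ∈ q.A ∧ ∃ ξ : O1, τ = ck _ (ez ξ) ∧ ξ < q.δ ∧ q.g i ξ = j ∧
      ∀ t, q.F i t ξ ∧ (i ≠ i' → ¬ q.F i' t ξ)

theorem reqX_dense : (reqX k).Dense := by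
  intro l p
  by_cases h : ∃ i i' j : k.ToType, lv l 0 = ck _ (ez i) ∧ lv l 1 = ck _ (ez i') ∧
      lv l 2 = ck _ (ez j) ∧ j ≤ i
  · obtain ⟨i, i', j, h1, h2, h3, h4⟩ := h
    obtain ⟨q, a1, -, a2, a3, ξ, a4⟩ := extend p ⊥ i i' h4
    refine ⟨q, a1, ck _ (ez ξ), fun u u' v e1 e2 e3 _ => ?_⟩
    obtain rfl := ez_inj (ck_inj (h1.symm.trans e1))
    obtain rfl := ez_inj (ck_inj (h2.symm.trans e2))
    obtain rfl := ez_inj (ck_inj (h3.symm.trans e3))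
    exact ⟨a2, a3, ξ, rfl, a4⟩
  · exact ⟨p, le_rfl, emptyN, fun i i' j h1 h2 h3 h4 => absurd ⟨i, i', j, h1, h2, h3, h4⟩ h⟩

def reqK (k : Ordinal.{0}) (s : List Bool) : Req (PP k) := fun l q τ => ∀ (i : k.ToType) (γ : O1),
  lv l 0 = ck _ (ez i) → lv l 1 = ck _ (ez γ) → γ < q.δ ∧ i ∈ q.A ∧ ∃ t, s <+: t ∧ ∃ β : O1,
    τ = ck _ (ez β) ∧ β ≤ γ ∧ ∃ n, ∀ t', t <+: t' → ∀ ξ, ξ < γ → (q.F i t' ξ ↔ q.S β n t' ξ)

theorem reqK_dense (s : List Bool) : (reqK k s).Dense := by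
  intro l p
  by_cases h : ∃ (i : k.ToType) (γ : O1), lv l 0 = ck _ (ez i) ∧ lv l 1 = ck _ (ez γ)
  · obtain ⟨i, γ, h1, h2⟩ := h
    obtain ⟨q, a1, a2, a3, -⟩ := extend p γ i i le_rfl
    obtain ⟨t, b1, β, b2⟩ := (q.good i).2 γ a2.le s
    refine ⟨q, a1, ck _ (ez β), fun u v e1 e2 => ?_⟩
    obtain rfl := ez_inj (ck_inj (h1.symm.trans e1))
    obtain rfl := ez_inj (ck_inj (h2.symm.trans e2))
    exact ⟨a2, a3, t, b1, β, rfl, b2⟩
  · exact ⟨p, le_rfl, emptyN, fun i γ h1 h2 => absurd ⟨i, γ, h1, h2⟩ h⟩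

def DZ (z : Nm (PP k)) (ξ : k.ToType) (γ : O1) (n : ℕ) : Set (PP k) :=
  {r | FMem (ck _ (pair (ez ξ) (pair (ez γ) (nat n)))) z r}

def reqZ (k : Ordinal.{0}) : Req (PP k) := fun l q τ =>
  (∃ ξ γ, τ = opN (ck _ (ez ξ)) (ck _ (ez γ)) ∧ ∀ r, r ≤ q → ∀ n, r ∉ DZ (lv l 0) ξ γ n) ∨
  (∃ ξ η β γ n m m', τ = opN (opN (ck _ (ez ξ)) (ck _ (ez η))) (opN (ck _ (ez β)) (ck _ (ez γ))) ∧
    β ≤ γ ∧ m ≠ m' ∧ q ∈ DZ (lv l 0) ξ γ n ∧ q ∈ DZ (lv l 0) η γ n ∧ q ∈ DZ (lv l 0) ξ β m ∧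
      q ∈ DZ (lv l 0) η β m') ∨
  ∃ ξ η, τ = opN (ck _ (ez ξ)) (ck _ (ez η)) ∧ ξ ≠ η ∧
    ∀ r, r ≤ q → ∀ γ n m, r ∈ DZ (lv l 0) ξ γ n → r ∈ DZ (lv l 0) η γ m → n = m

theorem reqZ_dense [Inac O1 k.ToType] : (reqZ k).Dense := by
  intro l p
  obtain ⟨q, hq, ⟨ξ, γ, h⟩ | ⟨ξ, η, β, γ, n, m, m', h⟩ | ⟨ξ, η, h⟩⟩ :=
    comb (DZ (lv l 0)) (fun _ _ _ _ _ h h' => FMem.mono h h') p
  · exact ⟨q, hq, _, Or.inl ⟨ξ, γ, rfl, h⟩⟩
  · exact ⟨q, hq, _, Or.inr (Or.inl ⟨ξ, η, β, γ, n, m, m', rfl, h⟩)⟩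
  · exact ⟨q, hq, _, Or.inr (Or.inr ⟨ξ, η, rfl, h⟩)⟩

variable {N : Set (Nm (PP k))} {G : Set (PP k)}

theorem noZ (h : Cl N G) (hw : ck _ AP.w1 ∈ N) (hk : ck _ k.toZFSet ∈ N) (hZ : Meets N G (reqZ k)) :
    ¬ ∃ Z ∈ Forc.Ext N G, ZP (pz N AP.w1) (pz N k.toZFSet) Z := by
  rintro ⟨_, ⟨z, hz, rfl⟩, z1, z2, z3⟩
  have ev : ∀ {ξ : k.ToType} {γ : O1} (n : ℕ), ck _ (ez ξ) ∈ N → ck _ (ez γ) ∈ N →
      (pair (pz N (ez ξ)) (pair (pz N (ez γ)) (nat n)) ∈ Forc.val N G z ↔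
        ∃ p ∈ G, p ∈ DZ z ξ γ n) := by
    intro ξ γ n h1 h2
    have h3 := h.in_pair h2 (h.in_nat n)
    rw [← h.pz_nat n, ← h.pz_pair h2 (h.in_nat n), ← h.pz_pair h1 h3, ← h.val_ck]
    exact h.pr.core.mem_iff (h.in_pair h1 h3) hz
  have mk : ∀ {ξ : k.ToType}, ck _ (ez ξ) ∈ N → pz N (ez ξ) ∈ pz N k.toZFSet := fun h1 =>
    (h.mem_iff h1 hk).2 (ez_mem _)
  have mo : ∀ {ξ : O1}, ck _ (ez ξ) ∈ N → pz N (ez ξ) ∈ pz N AP.w1 := fun h1 =>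
    (h.mem_iff h1 hw).2 (ez_mem _)
  obtain ⟨q, hq, τ, hτ, ⟨ξ, γ, rfl, h1⟩ | ⟨ξ, η, β, γ, n, m, m', rfl, h1, h2, h3, h4, h5, h6⟩ |
    ⟨ξ, η, rfl, h1, h2⟩⟩ := hZ [z] (by simpa using hz)
  · obtain ⟨a, b⟩ := h.pr.core.op_comp hτ
    obtain ⟨n, hn⟩ := z1 _ (mk a) _ (mo b)
    obtain ⟨p, hp, h2⟩ := (ev n a b).1 hn
    obtain ⟨r, -, c, d⟩ := h.pr.core.filt.dir q hq p hp
    exact h1 r c n (FMem.mono h2 d)
  · obtain ⟨a, b⟩ := h.pr.core.op_comp hτ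
    obtain ⟨a1, a2⟩ := h.pr.core.op_comp a
    obtain ⟨b1, b2⟩ := h.pr.core.op_comp b
    refine h2 (z2 _ (mk a1) _ (mk a2) _ (mo b1) _ (mo b2) ?_ n m m' ((ev _ a1 b2).2 ⟨q, hq, h3⟩)
      ((ev _ a2 b2).2 ⟨q, hq, h4⟩) ((ev _ a1 b1).2 ⟨q, hq, h5⟩) ((ev _ a2 b1).2 ⟨q, hq, h6⟩))
    rcases h1.eq_or_lt with rfl | h1
    · exact fun _ h => h
    · have : (pz N (ez γ)).IsOrdinal := by
        rw [pz, h.pr.pi_ordinal b2, toZF_chk]
        exact isOrdinal_toZFSet _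
      exact this.subset_of_mem ((h.mem_iff b1 b2).2 (ez_lt.2 h1))
  · obtain ⟨a, b⟩ := h.pr.core.op_comp hτ
    obtain ⟨γ, hγ, n, m, c1, c2, c3⟩ := z3 _ (mk a) _ (mk b) fun e =>
      h1 (ez_inj ((h.eq_iff a b).1 e))
    obtain ⟨γ, c, rfl⟩ := h.elemO hw hγ
    obtain ⟨p, hp, d1⟩ := (ev n a c).1 c2
    obtain ⟨p', hp', d2⟩ := (ev m b c).1 c3
    obtain ⟨r, -, e1, e2, e3⟩ := h.pr.core.filt.dir3 hq hp hp'
    exact c1 (h2 r e1 γ n m (FMem.mono d1 e2) (FMem.mono d2 e3))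

theorem evF (h : Cl N G) {i : k.ToType} {ξ : O1} (hi : ck _ (ez i) ∈ N) (hξ : ck _ (ez ξ) ∈ N)
    (t : List Bool) {q : PP k} (hq : q ∈ G) (h1 : i ∈ q.A) (h2 : ξ < q.δ) :
    pair (pz N (ez i)) (pair (cs t) (pz N (ez ξ))) ∈ Forc.val N G (nF k) ↔ q.F i t ξ := by
  have h3 := h.in_pair (h.str t) hξ
  rw [← h.pz_cs t, ← h.pz_pair (h.str t) hξ, ← h.pz_pair hi h3]
  refine (h.mem_rel cF_inj _ (x := (i, t, ξ)) (h.in_pair hi h3)).trans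
    ⟨fun ⟨p, hp, a, b⟩ => ?_, fun hh => ⟨q, hq, h1, hh⟩⟩
  obtain ⟨r, -, c, d⟩ := h.pr.core.filt.dir q hq p hp
  exact (((c.2 i h1).2 ξ h2).1 t).1 ((((d.2 i a).2 ξ ((p.good i).1 _ _ b)).1 t).2 b)

theorem evS (h : Cl N G) {β ξ : O1} (hβ : ck _ (ez β) ∈ N) (hξ : ck _ (ez ξ) ∈ N) (n : ℕ)
    (t : List Bool) {q : PP k} (hq : q ∈ G) (h1 : β ≤ q.δ) :
    pair (pair (pz N (ez β)) (nat n)) (pair (cs t) (pz N (ez ξ))) ∈ Forc.val N G (nS k) ↔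
      q.S β n t ξ := by
  have h3 := h.in_pair (h.str t) hξ
  have h4 := h.in_pair hβ (h.in_nat n)
  rw [← h.pz_cs t, ← h.pz_nat n, ← h.pz_pair (h.str t) hξ, ← h.pz_pair hβ (h.in_nat n),
    ← h.pz_pair h4 h3]
  refine (h.mem_rel cS_inj _ (x := ((β, n), t, ξ)) (h.in_pair h4 h3)).trans
    ⟨fun ⟨p, hp, a, b⟩ => ?_, fun hh => ⟨q, hq, h1, hh⟩⟩
  obtain ⟨r, -, c, d⟩ := h.pr.core.filt.dir q hq p hp
  rw [← c.1.2 β h1, d.1.2 β a]
  exact b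

theorem evG (h : Cl N G) {i j : k.ToType} {ξ : O1} (hi : ck _ (ez i) ∈ N) (hj : ck _ (ez j) ∈ N)
    (hξ : ck _ (ez ξ) ∈ N) :
    pair (pz N (ez i)) (pair (pz N (ez j)) (pz N (ez ξ))) ∈ Forc.val N G (nG k) ↔
      ∃ p ∈ G, i ∈ p.A ∧ ξ < p.δ ∧ p.g i ξ = j := by
  have h3 := h.in_pair hj hξ
  rw [← h.pz_pair hj hξ, ← h.pz_pair hi h3]
  exact h.mem_rel cG_inj _ (x := (i, j, ξ)) (h.in_pair hi h3)

theorem model (h : Cl N G) (hw : ck _ AP.w1 ∈ N) (hk : ck _ k.toZFSet ∈ N)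
    (h1 : AP.IsOmega1 (Forc.Ext N G) (pz N AP.w1)) (hF : nF k ∈ N) (hS : nS k ∈ N) (hG : nG k ∈ N)
    (hZ : Meets N G (reqZ k)) (hX : Meets N G (reqX k)) (hK : ∀ s, Meets N G (reqK k s)) :
    ¬ KH (Forc.Ext N G) ∧ ∀ x, Generic (Forc.Ext N G) x → KH (CohenE.Ext (Forc.Ext N G) x) := by
  have hno := noZ h hw hk hZ
  generalize hW : Forc.Ext N G = M at *
  have hM : Fact (CTM M) := ⟨hW ▸ h.pr.ctm_ext⟩
  have inM : ∀ {z}, ck _ z ∈ N → pz N z ∈ M := fun hz => hW ▸ h.pz_mem hz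
  let a : M := ⟨_, inM hw⟩
  let lam : M := ⟨_, inM hk⟩
  let Φ : M := ⟨Forc.val N G (nF k), hW ▸ ⟨_, hF, rfl⟩⟩
  let Sg : M := ⟨Forc.val N G (nS k), hW ▸ ⟨_, hS, rfl⟩⟩
  let Γ : M := ⟨Forc.val N G (nG k), hW ▸ ⟨_, hG, rfl⟩⟩
  have eo : (om : M).1 = ZFSet.omega := by
    rw [om_eq]
    ext z
    rw [mem_omega, omegaZ, ZFSet.mem_range]
    exact exists_congr fun n => eq_comm
  have ha : IsSuccIn M (om : M).1 a.1 := by
    rw [eo]
    exact h1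
  have lo : lam.1.IsOrdinal := by
    show (pi N _).IsOrdinal
    rw [h.pr.pi_ordinal hk, toZF_chk]
    exact isOrdinal_toZFSet _
  have mo : ∀ {ξ : O1}, ck _ (ez ξ) ∈ N → pz N (ez ξ) ∈ a.1 := fun h1 =>
    (h.mem_iff h1 hw).2 (ez_mem _)
  have hcol : ∀ α ∈ lam.1, LeIn M α a.1 := by
    intro α hα
    obtain ⟨i, hi, rfl⟩ := h.elemO hk hα
    refine le_of_rel (A := el lam hα) (B := a)
      (Q := fun j ξ => (mpair (el lam hα) (mpair j ξ)).1 ∈ Γ.1) (by repeat' (first | with_reducible apply D.not | with_reducible apply D.and | with_reducible apply D.or | with_reducible apply D.iff | with_reducible apply D.ex | with_reducible apply D.all | with_reducible apply D.imp | with_reducible apply D.subset | with_reducible apply D.mem | with_reducible apply D.eq | with_reducible apply F.pair | with_reducible apply F.up | with_reducible apply F.succ  | with_reducible exact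 F.const _ | exact F.var 0 | exact F.var 1 | exact F.var 2 | exact F.var 3 | exact F.var 4 | exact F.var 5 | exact F.var 6 | exact F.var 7 | exact F.var 8 | exact F.var 9 | exact F.var 10 | exact F.var 11 | exact F.var 12 | exact F.var 13)) (fun j hj => ?_) ?_
    · obtain ⟨j0, hj0, e⟩ := h.elemO hk (lo.mem_trans hj hα)
      have hj' : pz N (ez j0) ∈ pz N (ez i) := e ▸ hj
      obtain ⟨q, hq, τ, hτ, h2⟩ := hX [ck _ (ez i), ck _ (ez i), ck _ (ez j0)] (by simp [hi, hj0])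
      obtain ⟨b1, -, ξ, rfl, b2, b3, -⟩ := h2 i i j0 rfl rfl rfl
        (ez_lt.1 ((h.mem_iff hj0 hi).1 hj')).le
      refine ⟨⟨_, inM hτ⟩, mo hτ, ?_⟩
      show pair _ (pair j.1 _) ∈ _
      rw [e]
      exact (evG h hi hj0 hτ).2 ⟨q, hq, b1, b2, b3⟩
    · intro j j' ξ hj hj' hξ b1 b2
      obtain ⟨j0, hj0, e⟩ := h.elemO hk (lo.mem_trans hj hα)
      obtain ⟨j1, hj1, e'⟩ := h.elemO hk (lo.mem_trans hj' hα)
      obtain ⟨ξ0, hξ0, e''⟩ := h.elemO hw hξ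
      change pair _ (pair j.1 ξ.1) ∈ _ at b1
      change pair _ (pair j'.1 ξ.1) ∈ _ at b2
      rw [e, e''] at b1
      rw [e', e''] at b2
      obtain ⟨p, hp, c1, c2, c3⟩ := (evG h hi hj0 hξ0).1 b1
      obtain ⟨p', hp', d1, d2, d3⟩ := (evG h hi hj1 hξ0).1 b2
      obtain ⟨r, -, c, d⟩ := h.pr.core.filt.dir p hp p' hp'
      apply Subtype.ext
      rw [e, e', ← c3, ← d3, ← ((c.2 i c1).2 _ c2).2, ((d.2 i d1).2 _ d2).2]
  have hl : IsSuccIn M a.1 lam.1 := ⟨lam.2, lo, fun hh => hno (z_of_inj ha hh), hcol⟩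
  refine ⟨fun hh => hno (z_of_kh ha lo hcol hh), fun x hx =>
    kh_of_data (Φ := Φ) (Sg := Sg) ha hl ?_ ?_ ⟨x, hx⟩⟩
  · rintro ⟨i, _⟩ ⟨γ, _⟩ ⟨s, _⟩ hi hγ hs
    obtain ⟨i, hi', rfl⟩ := h.elemO hk hi
    obtain ⟨γ, hγ', rfl⟩ := h.elemO hw hγ
    obtain ⟨s, rfl⟩ := cs_surj ((mem_cnd _).1 hs)
    obtain ⟨q, hq, τ, hτ, h2⟩ := hK s [ck _ (ez i), ck _ (ez γ)] (by simp [hi', hγ'])
    obtain ⟨b1, b2, t, b3, β, rfl, b4, n, b5⟩ := h2 i γ rfl rfl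
    refine ⟨⟨cs t, (cs_cond t).memM⟩, ⟨_, inM hτ⟩, mnat n, (mem_cnd _).2 (cs_cond t),
      cs_subset.2 b3, ?_, (mem_om _).2 ⟨n, rfl⟩, ?_⟩
    · rcases b4.eq_or_lt with rfl | b4
      · exact ZFSet.mem_insert _ _
      · exact ZFSet.mem_insert_of_mem _ ((h.mem_iff hτ hγ').2 (ez_lt.2 b4))
    · rintro ⟨t', _⟩ ⟨ξ, _⟩ c1 c2 c3
      obtain ⟨t', rfl⟩ := cs_surj ((mem_cnd _).1 c1)
      obtain ⟨ξ, hξ, rfl⟩ := h.elemO hw (ha.2.1.mem_trans c3 hγ)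
      have c4 := ez_lt.1 ((h.mem_iff hξ hγ').1 c3)
      exact (evF h hi' hξ t' hq b2 (c4.trans b1)).trans ((b5 t' (cs_subset.1 c2) ξ c4).trans
        (evS h hτ hξ n t' hq (b4.trans b1.le)).symm)
  · rintro ⟨i, _⟩ ⟨j, _⟩ hi hj hne
    obtain ⟨i, hi', rfl⟩ := h.elemO hk hi
    obtain ⟨j, hj', rfl⟩ := h.elemO hk hj
    obtain ⟨q, hq, τ, hτ, h2⟩ := hX [ck _ (ez i), ck _ (ez j), ck _ (ez i)] (by simp [hi', hj'])
    obtain ⟨b1, b2, ξ, rfl, b3, -, b4⟩ := h2 i j i rfl rfl rfl le_rfl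
    refine ⟨⟨_, inM hτ⟩, mo hτ, ?_⟩
    rintro ⟨t, _⟩ ht
    obtain ⟨t, rfl⟩ := cs_surj ((mem_cnd _).1 ht)
    exact ⟨(evF h hi' hτ t hq b1 b3).2 (b4 t).1, fun hh => (b4 t).2 (fun e => hne (by subst e; rfl))
      ((evF h hj' hτ t hq b2 b3).1 hh)⟩

theorem main (h : ∃ κ : Cardinal.{0}, κ.IsInaccessible) : ∃ W : Set ZFSet.{0}, CTM W ∧ ¬ KH W ∧
    (∃ x, Generic W x) ∧ ∀ x, Generic W x → KH (CohenE.Ext W x) := by
  obtain ⟨κ, hκ⟩ := h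
  have := inac_of hκ
  let R0 : Req (PP κ.ord) := clos fun l => ck _ (toZF (fg (lv l 0)))
  obtain ⟨N, G, h, hw, -, h1, -, h2⟩ := AP.exists_good (P := PP κ.ord)
    (SigmaClosed.cov sigma_closed) ({R0, clos fun _ => ck _ κ.ord.toZFSet, clos fun _ => nF _,
      clos fun _ => nS _, clos fun _ => nG _, reqZ _, reqX _} ∪
      (Set.range (reqK _) ∪ Set.range fun l : List Bool => clos fun _ => ck _ (cs l)))
    ((Set.toFinite _).countable.union ((Set.countable_range _).union (Set.countable_range _))) (by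
      rintro R ((rfl | rfl | rfl | rfl | rfl | rfl | rfl) | ⟨s, rfl⟩ | ⟨s, rfl⟩)
      · exact clos_dense _
      · exact clos_dense _
      · exact clos_dense _
      · exact clos_dense _
      · exact clos_dense _
      · exact reqZ_dense
      · exact reqX_dense
      · exact reqK_dense s
      · exact clos_dense _)
  have hc : ∀ τ, (clos fun _ => τ) ∈ _ → τ ∈ N := fun τ hτ =>
    (h2 (clos fun _ => τ) hτ).clos [] (by simp)
  have hcl : Cl N G := ⟨h, fun σ hσ => by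
    have := (h2 R0 (Or.inl (Or.inl rfl))).clos [io _ σ] (by
      intro x hx
      rw [List.mem_singleton.1 hx]; exact hσ)
    change ck _ (toZF (fg (io _ σ))) ∈ N at this
    rwa [fg_io] at this, fun l => hc _ (Or.inr (Or.inr ⟨l, rfl⟩))⟩
  obtain ⟨a, b⟩ := model hcl hw (hc _ (by simp)) h1 (hc _ (by simp)) (hc _ (by simp))
    (hc _ (by simp)) (h2 _ (by simp)) (h2 _ (by simp)) fun s => h2 _ (Or.inr (Or.inl ⟨s, rfl⟩))
  obtain ⟨y, -, hy, -⟩ := CohenE.exists_generic _ h.ctm_ext.countable _ (cs_cond [])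
  exact ⟨_, h.ctm_ext, a, ⟨y, hy⟩, b⟩

end Pool.Agent.H926Z.KH
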