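import Pool.Agent.H926Z.WK.Main
import Pool.Agent.H926Z.KH.Defs

/-! A Kurepa tree in the Cohen extension. -/

set_option linter.unusedSectionVars false
set_option linter.unreachableTactic false
set_option linter.unusedTactic false

namespace Pool.Agent.H926Z.KH

open CohenE ZFSet WK

variable {M : Set ZFSet.{0}} [hM : Fact (CTM M)]

theorem tm_sep {Q : M → M → XM M → Prop} (hQ : FF M (fun (p : M × M) x => Q p.1 p.2 x)) (a : M) :
    ∃ t : M → XM M → ZFSet.{0}, Tm M t ∧
      ∀ γ x z, z ∈ t γ x ↔ ∃ u : M, z = u.1 ∧ u.1 ∈ a.1 ∧ Q γ u x := by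
  obtain ⟨c, hc, hc'⟩ := exists_chk (M := M)
  obtain ⟨b, hb⟩ := image1 hc a
  let Fr : M → M → M → Prop := fun γ u s => Frc (Q γ u) s
  have hFr : D M (fun p : (M × M) × M => Fr p.1.1 p.1.2 p.2) := hQ.df
  have hD : D M (fun p : M × M => ∃ u s : M, u.1 ∈ a.1 ∧ Fr p.1 u s ∧ p.2 = mpair (c u) s) := by
    repeat' (first | with_reducible apply app3 hFr | with_reducible apply fapp1 hc | with_reducible apply D.not | with_reducible apply D.and | with_reducible apply D.or | with_reducible apply D.iff | with_reducible apply D.ex | with_reducible apply D.all | with_reducible apply D.imp | with_reducible apply D.subset | with_reducible apply D.mem | with_reducible apply D.eq | with_reducible apply F.pair | with_reducible apply F.up | with_reducible apply F.succ  | with_reducible exact F.const _ | exact F.var 0 | exact F.var 1 | exact F.var 2 | exact F.var 3 | exact F.var 4 | exact F.var 5 | exact F.var 6 | exact F.var 7 | exact F.var 8 | exact F.var 9 | exact F.var 10 | exact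 F.var 11 | exact F.var 12 | exact F.var 13)
  have hm := fun γ => mem_msep
    (Q := fun (γ : M) z => ∃ u s : M, u.1 ∈ a.1 ∧ Fr γ u s ∧ z = mpair (c u) s) hD γ (mprod b cnd)
  refine ⟨_, Tm.val (F.sep
    (Q := fun (γ : M) z => ∃ u s : M, u.1 ∈ a.1 ∧ Fr γ u s ∧ z = mpair (c u) s) hD
    (F.const (mprod b cnd))), fun γ x z => ?_⟩
  rw [ec_mem_valM]
  constructor
  · rintro ⟨ρ, s, h, hs, rfl⟩
    obtain ⟨-, u, s', h1, h2, e⟩ := (hm γ _).1 h
    obtain ⟨rfl, rfl⟩ := mpair_inj.1 e
    exact ⟨u, hc' u x, h1, h2 x hs⟩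
  · rintro ⟨u, rfl, h1, h2⟩
    obtain ⟨s, hs, h3⟩ := hQ.op (γ, u) x h2
    exact ⟨c u, s, (hm γ _).2 ⟨(pair_mem_mprod _ _ _ _).2 ⟨(hb _).2 ⟨u, h1, rfl⟩, hs.mem_cnd⟩,
      u, s, h1, h3, rfl⟩, hs, (hc' u x).symm⟩

theorem Tm.ext_mem {t : M → XM M → ZFSet.{0}} (h : Tm M t) (γ : M) (x : XM M) :
    t γ x ∈ Ext M x.1 := by
  obtain ⟨f, -, hf⟩ := h
  rw [hf]; exact val_mem x _

theorem sepx2 {Q : M → M → XM M → Prop} (hQ : FF M (fun (p : M × M) x => Q p.1 p.2 x)) (a b : M)
    (x : XM M) : ∃ c ∈ Ext M x.1, (∀ z ∈ c, ∃ u v : M, z = pair u.1 v.1) ∧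
      ∀ u v : M, pair u.1 v.1 ∈ c ↔ u.1 ∈ a.1 ∧ v.1 ∈ b.1 ∧ Q u v x := by
  obtain ⟨t, ht, ht'⟩ := tm_sep (Q := fun _ z x => ∃ u v : M, z = mpair u v ∧ Q u v x)
    (by repeat' (first | with_reducible apply ffapp2 hQ | with_reducible apply FF.not | with_reducible apply FF.and | with_reducible apply FF.or | with_reducible apply FF.iff | with_reducible apply FF.ex | with_reducible apply FF.all | with_reducible apply FF.imp | with_reducible apply FF.seg | with_reducible apply FF.opn | with_reducible apply FF.const | with_reducible apply tmem | with_reducible apply teq | with_reducible apply Tm.pair | with_reducible apply Tm.val | with_reducible apply Tm.gnd | with_reducible apply D.not | with_reducible apply D.and | with_reducible apply D.or | with_reducible apply D.iff | with_reducible apply D.ex | with_reducible apply D.all | with_reducible apply D.imp | with_reducible apply D.subset | with_reducible apply D.mem | with_reducible apply D.eq | with_reducible apply F.pair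 | with_reducible apply F.up | with_reducible apply F.succ  | with_reducible exact F.const _ | exact F.var 0 | exact F.var 1 | exact F.var 2 | exact F.var 3 | exact F.var 4 | exact F.var 5 | exact F.var 6 | exact F.var 7 | exact F.var 8 | exact F.var 9 | exact F.var 10 | exact F.var 11 | exact F.var 12 | exact F.var 13)) (mprod a b)
  refine ⟨t memp x, Tm.ext_mem ht _ _, fun z hz => ?_, fun u v => ?_⟩
  · obtain ⟨_, rfl, -, u, v, rfl, -⟩ := (ht' _ _ _).1 hz
    exact ⟨u, v, rfl⟩
  · rw [ht']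
    constructor
    · rintro ⟨_, e, h1, u', v', rfl, h2⟩
      obtain ⟨rfl, rfl⟩ := mpair_inj.1 (Subtype.ext e : mpair u v = mpair u' v')
      exact ⟨((pair_mem_mprod _ _ _ _).1 h1).1, ((pair_mem_mprod _ _ _ _).1 h1).2, h2⟩
    · rintro ⟨h1, h2, h3⟩
      exact ⟨mpair u v, rfl, (pair_mem_mprod _ _ _ _).2 ⟨h1, h2⟩, u, v, rfl, h3⟩

theorem imgx {t : M → XM M → ZFSet.{0}} (h : Tm M t) (a : M) (x : XM M) :
    ∃ b ∈ Ext M x.1, ∀ z, z ∈ b ↔ ∃ u : M, u.1 ∈ a.1 ∧ z = t u x := by
  obtain ⟨f, hf, hf'⟩ := h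
  obtain ⟨b, hb⟩ := image1 (G := fun u : M => mpair (f u) memp) (F.pair hf (F.const _)) a
  refine ⟨_, val_mem x b, fun z => ?_⟩
  rw [ec_mem_valM]
  constructor
  · rintro ⟨ρ, s, h, -, rfl⟩
    obtain ⟨u, h1, e⟩ := (hb _).1 h
    exact ⟨u, h1, by rw [hf', (mpair_inj.1 e).1]⟩
  · rintro ⟨u, h1, rfl⟩
    exact ⟨f u, memp, (hb _).2 ⟨u, h1, rfl⟩, seg_memp x, hf' u x⟩

theorem succ_up {μ κ : M} (h : IsSuccIn M μ.1 κ.1) (h' : LeIn M (mprod cnd μ).1 μ.1) (x : XM M) :
    IsSuccIn (Ext M x.1) μ.1 κ.1 :=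
  ⟨subset_ext x κ.2, h.2.1, fun hh => h.2.2.1 ((le_down hh).trans h'),
    fun α hα => le_up (h.2.2.2 α hα)⟩

theorem kh_up {κ lam : M} (hκ : IsSuccIn M (om : M).1 κ.1) (hl : IsSuccIn M κ.1 lam.1)
    {S C : M → M → M → XM M → Prop}
    (hS : FF M (fun (p : (M × M) × M) x => S p.1.1 p.1.2 p.2 x))
    (hC : FF M (fun (p : (M × M) × M) x => C p.1.1 p.1.2 p.2 x)) (x : XM M)
    (refl : ∀ i γ : M, S i i γ x) (symm : ∀ i j γ : M, S i j γ x → S j i γ x)
    (trans : ∀ i j k γ : M, S i j γ x → S j k γ x → S i k γ x)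
    (down : ∀ i j γ γ' : M, γ.1 ∈ κ.1 → γ'.1 ∈ γ.1 → S i j γ x → S i j γ' x)
    (cov : ∀ γ : M, γ.1 ∈ κ.1 → ∃ Y : M, LeIn M Y.1 (om : M).1 ∧
      ∀ i : M, i.1 ∈ lam.1 → ∃ c : M, c.1 ∈ Y.1 ∧ C i γ c x)
    (same : ∀ i j γ c : M, C i γ c x → C j γ c x → S i j γ x)
    (diff : ∀ i j : M, i.1 ∈ lam.1 → j.1 ∈ lam.1 → i ≠ j → ∃ γ : M, γ.1 ∈ κ.1 ∧ ¬ S i j γ x) :
    KH (Ext M x.1) := by
  have ko := hκ.2.1
  have lo := hl.2.1
  have hwf : WellFounded (fun b a : M => b.1 ∈ a.1) := InvImage.wf Subtype.val mem_wf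
  let N : M → M → XM M → Prop := fun γ j y => γ.1 ∈ κ.1 ∧ j.1 ∈ lam.1 ∧
    ∀ k : M, k.1 ∈ j.1 → ¬ S j k γ y
  have hN : FF M (fun (p : M × M) y => N p.1 p.2 y) := by
    simp only [N]
    repeat' (first | with_reducible apply ffapp3 hS | with_reducible apply FF.not | with_reducible apply FF.and | with_reducible apply FF.or | with_reducible apply FF.iff | with_reducible apply FF.ex | with_reducible apply FF.all | with_reducible apply FF.imp | with_reducible apply FF.seg | with_reducible apply FF.opn | with_reducible apply FF.const | with_reducible apply tmem | with_reducible apply teq | with_reducible apply Tm.pair | with_reducible apply Tm.val | with_reducible apply Tm.gnd | with_reducible apply D.not | with_reducible apply D.and | with_reducible apply D.or | with_reducible apply D.iff | with_reducible apply D.ex | with_reducible apply D.all | with_reducible apply D.imp | with_reducible apply D.subset | with_reducible apply D.mem | with_reducible apply D.eq | with_reducible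 apply F.pair | with_reducible apply F.up | with_reducible apply F.succ  | with_reducible exact F.const _ | exact F.var 0 | exact F.var 1 | exact F.var 2 | exact F.var 3 | exact F.var 4 | exact F.var 5 | exact F.var 6 | exact F.var 7 | exact F.var 8 | exact F.var 9 | exact F.var 10 | exact F.var 11 | exact F.var 12 | exact F.var 13)
  obtain ⟨T, hTm, hT0, hT1⟩ := sepx2 hN κ lam x
  have hT : ∀ γ j : M, pair γ.1 j.1 ∈ T ↔ N γ j x := fun γ j =>
    (hT1 γ j).trans ⟨fun h => h.2.2, fun h => ⟨h.1, h.2.1, h⟩⟩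
  have rep : ∀ γ i : M, γ.1 ∈ κ.1 → i.1 ∈ lam.1 → ∃ j : M, N γ j x ∧ S j i γ x := by
    intro γ i hγ hi
    obtain ⟨j, ⟨h1, h2⟩, hmin⟩ := hwf.has_min {k | k.1 ∈ lam.1 ∧ S k i γ x} ⟨i, hi, refl _ _⟩
    exact ⟨j, ⟨hγ, h1, fun k hk h3 =>
      hmin k ⟨lo.mem_trans hk h1, trans _ _ _ _ (symm _ _ _ h3) h2⟩ hk⟩, h2⟩
  have uniq : ∀ γ j j' : M, N γ j x → N γ j' x → S j j' γ x → j = j' := by
    intro γ j j' h h' hs
    rcases (lo.mem h.2.1).mem_trichotomous (lo.mem h'.2.1) with e | e | e
    · exact absurd (symm _ _ _ hs) (h'.2.2 _ e)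
    · exact Subtype.ext e
    · exact absurd hs (h.2.2 _ e)
  have hpm : ∀ γ j : M, N γ j x → (mpair γ j).1 ∈ (mprod κ lam).1 := fun γ j h =>
    (pair_mem_mprod _ _ _ _).2 ⟨h.1, h.2.1⟩
  obtain ⟨R, hRm, hR0, hR1⟩ := sepx2 (Q := fun u v y => ∃ γ j γ' j' : M, u = mpair γ j ∧
    v = mpair γ' j' ∧ N γ j y ∧ N γ' j' y ∧ γ.1 ∈ γ'.1 ∧ S j j' γ y)
    (by repeat' (first | with_reducible apply ffapp3 hS | with_reducible apply ffapp2 hN | with_reducible apply FF.not | with_reducible apply FF.and | with_reducible apply FF.or | with_reducible apply FF.iff | with_reducible apply FF.ex | with_reducible apply FF.all | with_reducible apply FF.imp | with_reducible apply FF.seg | with_reducible apply FF.opn | with_reducible apply FF.const | with_reducible apply tmem | with_reducible apply teq | with_reducible apply Tm.pair | with_reducible apply Tm.val | with_reducible apply Tm.gnd | with_reducible apply D.not | with_reducible apply D.and | with_reducible apply D.or | with_reducible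 apply D.iff | with_reducible apply D.ex | with_reducible apply D.all | with_reducible apply D.imp | with_reducible apply D.subset | with_reducible apply D.mem | with_reducible apply D.eq | with_reducible apply F.pair | with_reducible apply F.up | with_reducible apply F.succ  | with_reducible exact F.const _ | exact F.var 0 | exact F.var 1 | exact F.var 2 | exact F.var 3 | exact F.var 4 | exact F.var 5 | exact F.var 6 | exact F.var 7 | exact F.var 8 | exact F.var 9 | exact F.var 10 | exact F.var 11 | exact F.var 12 | exact F.var 13)) (mprod κ lam) (mprod κ lam) x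
  have hR : ∀ γ j γ' j' : M, pair (pair γ.1 j.1) (pair γ'.1 j'.1) ∈ R ↔ N γ j x ∧ N γ' j' x ∧
      γ.1 ∈ γ'.1 ∧ S j j' γ x := by
    intro γ j γ' j'
    refine (hR1 (mpair γ j) (mpair γ' j')).trans ⟨?_, fun h =>
      ⟨hpm _ _ h.1, hpm _ _ h.2.1, γ, j, γ', j', rfl, rfl, h⟩⟩
    rintro ⟨-, -, a, b, c, d, e1, e2, h⟩
    obtain ⟨rfl, rfl⟩ := mpair_inj.1 e1
    obtain ⟨rfl, rfl⟩ := mpair_inj.1 e2
    exact h
  have hRd : ∀ u v, pair u v ∈ R → ∃ γ j γ' j' : M, u = pair γ.1 j.1 ∧ v = pair γ'.1 j'.1 := by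
    intro u v h
    obtain ⟨u', v', e⟩ := hR0 _ h
    obtain ⟨rfl, rfl⟩ := pair_inj.1 e
    obtain ⟨-, -, a, b, c, d, rfl, rfl, -⟩ := (hR1 _ _).1 h
    exact ⟨a, b, c, d, rfl, rfl⟩
  have hHt : ∀ γ i : M, N γ i x → HtIn (Ext M x.1) T R (pair γ.1 i.1) γ.1 := by
    intro γ i ht
    obtain ⟨f, hfm, hf0, hf1⟩ := sepx2
      (Q := fun β u y => ∃ j : M, u = mpair β j ∧ N β j y ∧ S j i β y)
      (by repeat' (first | with_reducible apply ffapp3 hS | with_reducible apply ffapp2 hN | with_reducible apply FF.not | with_reducible apply FF.and | with_reducible apply FF.or | with_reducible apply FF.iff | with_reducible apply FF.ex | with_reducible apply FF.all | with_reducible apply FF.imp | with_reducible apply FF.seg | with_reducible apply FF.opn | with_reducible apply FF.const | with_reducible apply tmem | with_reducible apply teq | with_reducible apply Tm.pair | with_reducible apply Tm.val | with_reducible apply Tm.gnd | with_reducible apply D.not | with_reducible apply D.and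 | with_reducible apply D.or | with_reducible apply D.iff | with_reducible apply D.ex | with_reducible apply D.all | with_reducible apply D.imp | with_reducible apply D.subset | with_reducible apply D.mem | with_reducible apply D.eq | with_reducible apply F.pair | with_reducible apply F.up | with_reducible apply F.succ  | with_reducible exact F.const _ | exact F.var 0 | exact F.var 1 | exact F.var 2 | exact F.var 3 | exact F.var 4 | exact F.var 5 | exact F.var 6 | exact F.var 7 | exact F.var 8 | exact F.var 9 | exact F.var 10 | exact F.var 11 | exact F.var 12 | exact F.var 13)) γ (mprod κ lam) x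
    have hfd : ∀ β u, pair β u ∈ f → ∃ β' j : M, β = β'.1 ∧ u = pair β'.1 j.1 ∧
        β'.1 ∈ γ.1 ∧ N β' j x ∧ S j i β' x := fun β u h => by
      obtain ⟨β', u', e⟩ := hf0 _ h
      obtain ⟨rfl, rfl⟩ := pair_inj.1 e
      obtain ⟨h1, -, j, rfl, h2⟩ := (hf1 _ _).1 h
      exact ⟨β', j, rfl, rfl, h1, h2⟩
    have hfi : ∀ β j : M, β.1 ∈ γ.1 → N β j x → S j i β x → pair β.1 (pair β.1 j.1) ∈ f :=
      fun β j h1 h2 h3 => (hf1 β (mpair β j)).2 ⟨h1, hpm _ _ h2, j, rfl, h2, h3⟩
    refine ⟨ko.mem ht.1, f, hfm, ⟨fun z hz => ?_, fun β hβ => ?_⟩, fun u => ⟨fun h => ?_, ?_⟩,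
      fun β β' u v h h' => ?_⟩
    · obtain ⟨β, u, rfl⟩ := hf0 z hz
      obtain ⟨β', j, e1, e2, h1, h2, -⟩ := hfd _ _ hz
      rw [e1, e2]
      exact pair_mem_prod.2 ⟨h1, (hT _ _).2 h2⟩
    · obtain ⟨j, h1, h2⟩ := rep (el γ hβ) i (ko.mem_trans hβ ht.1) ht.2.1
      refine ⟨_, hfi (el γ hβ) j hβ h1 h2, fun u hu => ?_⟩
      obtain ⟨β', j', e, rfl, -, h3, h4⟩ := hfd _ _ hu
      obtain rfl : el γ hβ = β' := Subtype.ext e
      rw [uniq _ _ _ h1 h3 (trans _ _ _ _ h2 (symm _ _ _ h4))]
    · obtain ⟨β, j, γ', i', rfl, e⟩ := hRd _ _ h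
      obtain ⟨h1, -, h2, h3⟩ := (hR _ _ _ _).1 h
      exact ⟨_, hfi β j h2 h1 h3⟩
    · rintro ⟨β, h⟩
      obtain ⟨β', j, -, rfl, h1, h2, h3⟩ := hfd _ _ h
      exact (hR _ _ _ _).2 ⟨h2, ht, h1, h3⟩
    · obtain ⟨γ', j, rfl, rfl, h1, h2, h3⟩ := hfd _ _ h
      obtain ⟨γ'', j', rfl, rfl, h1', h2', h3'⟩ := hfd _ _ h'
      rw [hR]
      exact ⟨fun h4 => ⟨h2, h2', h4, trans _ _ _ _ h3 (symm _ _ _ (down _ _ _ _ h2'.1 h4 h3'))⟩,
        fun h4 => h4.2.2.1⟩
  have hpo : StrictPO T R := by
    refine ⟨fun z hz => ?_, fun u h => ?_, fun u v w h h' => ?_⟩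
    · obtain ⟨u, v, rfl⟩ := hR0 z hz
      obtain ⟨γ, j, γ', j', e1, e2⟩ := hRd _ _ hz
      rw [e1, e2] at hz ⊢
      obtain ⟨h1, h2, -⟩ := (hR _ _ _ _).1 hz
      exact pair_mem_prod.2 ⟨(hT _ _).2 h1, (hT _ _).2 h2⟩
    · obtain ⟨γ, j, -, -, rfl, -⟩ := hRd _ _ h
      exact mem_irrefl _ ((hR _ _ _ _).1 h).2.2.1
    · obtain ⟨γ, j, γ', j', rfl, rfl⟩ := hRd _ _ h
      obtain ⟨-, -, γ'', j'', -, rfl⟩ := hRd _ _ h'
      obtain ⟨h1, h2, h3, h4⟩ := (hR _ _ _ _).1 h
      obtain ⟨-, h2', h3', h4'⟩ := (hR _ _ _ _).1 h'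
      exact (hR _ _ _ _).2 ⟨h1, h2', (ko.mem h2'.1).mem_trans h3 h3',
        trans _ _ _ _ h4 (down _ _ _ _ h2.1 h3 h4')⟩
  obtain ⟨b, hb, hb'⟩ := tm_sep
    (Q := fun i u y => ∃ γ j : M, u = mpair γ j ∧ N γ j y ∧ S j i γ y)
    (by repeat' (first | with_reducible apply ffapp3 hS | with_reducible apply ffapp2 hN | with_reducible apply FF.not | with_reducible apply FF.and | with_reducible apply FF.or | with_reducible apply FF.iff | with_reducible apply FF.ex | with_reducible apply FF.all | with_reducible apply FF.imp | with_reducible apply FF.seg | with_reducible apply FF.opn | with_reducible apply FF.const | with_reducible apply tmem | with_reducible apply teq | with_reducible apply Tm.pair | with_reducible apply Tm.val | with_reducible apply Tm.gnd | with_reducible apply D.not | with_reducible apply D.and | with_reducible apply D.or | with_reducible apply D.iff | with_reducible apply D.ex | with_reducible apply D.all | with_reducible apply D.imp | with_reducible apply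 D.subset | with_reducible apply D.mem | with_reducible apply D.eq | with_reducible apply F.pair | with_reducible apply F.up | with_reducible apply F.succ  | with_reducible exact F.const _ | exact F.var 0 | exact F.var 1 | exact F.var 2 | exact F.var 3 | exact F.var 4 | exact F.var 5 | exact F.var 6 | exact F.var 7 | exact F.var 8 | exact F.var 9 | exact F.var 10 | exact F.var 11 | exact F.var 12 | exact F.var 13)) (mprod κ lam)
  have hbd : ∀ i u, u ∈ b i x ↔ ∃ γ j : M, u = pair γ.1 j.1 ∧ N γ j x ∧ S j i γ x := by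
    intro i u
    rw [hb']
    constructor
    · rintro ⟨_, rfl, -, γ, j, rfl, h⟩
      exact ⟨γ, j, rfl, h⟩
    · rintro ⟨γ, j, rfl, h⟩
      exact ⟨mpair γ j, rfl, hpm _ _ h.1, γ, j, rfl, h⟩
  obtain ⟨B, hBm, hB⟩ := imgx hb lam x
  obtain ⟨g, hgm, hg⟩ := imgx (t := fun i y => pair i.1 (b i y)) (Tm.pair (Tm.gnd (F.var 0)) hb)
    lam x
  have hgd : ∀ a z, pair a z ∈ g → ∃ i : M, i.1 ∈ lam.1 ∧ a = i.1 ∧ z = b i x := fun a z h => by
    obtain ⟨i, h1, e⟩ := (hg _).1 h
    exact ⟨i, h1, pair_inj.1 e⟩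
  have h0 : (memp : M).1 ∈ lam.1 := by
    rcases isOrdinal_empty.mem_trichotomous lo with e | e | e
    · exact e
    · exact absurd (le_of_subset fun z hz => absurd (e ▸ hz) (notMem_empty z)) hl.2.2.1
    · exact absurd e (notMem_empty _)
  refine ⟨κ, lam, om_eq (M := M) ▸ succ_up hκ cnd_om x, succ_up hl (cnd_kappa hκ) x, T, hTm, R, hRm,
    hpo, fun t ht => ?_, fun γ hγ => ?_, fun γ hγ => ?_, B, hBm, fun z hz => ?_, g, hgm,
    ⟨fun z hz => ?_, fun a ha => ?_⟩, fun a a' z h h' => ?_⟩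
  · obtain ⟨γ, j, rfl⟩ := hT0 t ht
    exact ⟨γ, ((hT _ _).1 ht).1, hHt _ _ ((hT _ _).1 ht)⟩
  · obtain ⟨j, h, -⟩ := rep (el κ hγ) memp hγ h0
    exact ⟨_, (hT _ _).2 h, hHt _ _ h⟩
  · obtain ⟨γ, rfl⟩ : ∃ γ' : M, γ = γ'.1 := ⟨el κ hγ, rfl⟩
    obtain ⟨L, hLm, hL0, hL1⟩ := sepx2 (Q := fun β j y => β = γ ∧ N β j y) (by repeat' (first | with_reducible apply ffapp2 hN | with_reducible apply FF.not | with_reducible apply FF.and | with_reducible apply FF.or | with_reducible apply FF.iff | with_reducible apply FF.ex | with_reducible apply FF.all | with_reducible apply FF.imp | with_reducible apply FF.seg | with_reducible apply FF.opn | with_reducible apply FF.const | with_reducible apply tmem | with_reducible apply teq | with_reducible apply Tm.pair | with_reducible apply Tm.val | with_reducible apply Tm.gnd | with_reducible apply D.not | with_reducible apply D.and | with_reducible apply D.or | with_reducible apply D.iff | with_reducible apply D.ex | with_reducible apply D.all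 | with_reducible apply D.imp | with_reducible apply D.subset | with_reducible apply D.mem | with_reducible apply D.eq | with_reducible apply F.pair | with_reducible apply F.up | with_reducible apply F.succ  | with_reducible exact F.const _ | exact F.var 0 | exact F.var 1 | exact F.var 2 | exact F.var 3 | exact F.var 4 | exact F.var 5 | exact F.var 6 | exact F.var 7 | exact F.var 8 | exact F.var 9 | exact F.var 10 | exact F.var 11 | exact F.var 12 | exact F.var 13))
      κ lam x
    have hL : ∀ t, t ∈ L ↔ ∃ j : M, t = pair γ.1 j.1 ∧ N γ j x := fun t => by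
      constructor
      · intro ht
        obtain ⟨β, j, rfl⟩ := hL0 t ht
        obtain ⟨-, -, rfl, h⟩ := (hL1 _ _).1 ht
        exact ⟨j, rfl, h⟩
      · rintro ⟨j, rfl, h⟩
        exact (hL1 _ _).2 ⟨h.1, h.2.1, rfl, h⟩
    obtain ⟨Y, hY, hY'⟩ := cov γ hγ
    obtain ⟨e, e1, e2, -⟩ := hY.dest
    let Q : M → M → XM M → Prop := fun u n y => ∃ j c : M, u = mpair γ j ∧ N γ j y ∧
      C j γ c y ∧ (mpair c n).1 ∈ e.1
    have hQ : FF M (fun (p : M × M) y => Q p.1 p.2 y) := by
      simp only [Q]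
      repeat' (first | with_reducible apply ffapp3 hC | with_reducible apply ffapp2 hN | with_reducible apply FF.not | with_reducible apply FF.and | with_reducible apply FF.or | with_reducible apply FF.iff | with_reducible apply FF.ex | with_reducible apply FF.all | with_reducible apply FF.imp | with_reducible apply FF.seg | with_reducible apply FF.opn | with_reducible apply FF.const | with_reducible apply tmem | with_reducible apply teq | with_reducible apply Tm.pair | with_reducible apply Tm.val | with_reducible apply Tm.gnd | with_reducible apply D.not | with_reducible apply D.and | with_reducible apply D.or | with_reducible apply D.iff | with_reducible apply D.ex | with_reducible apply D.all | with_reducible apply D.imp | with_reducible apply D.subset | with_reducible apply D.mem | with_reducible apply D.eq | with_reducible apply F.pair | with_reducible apply F.up | with_reducible apply F.succ  | with_reducible exact F.const _ | exact F.var 0 | exact F.var 1 | exact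 F.var 2 | exact F.var 3 | exact F.var 4 | exact F.var 5 | exact F.var 6 | exact F.var 7 | exact F.var 8 | exact F.var 9 | exact F.var 10 | exact F.var 11 | exact F.var 12 | exact F.var 13)
    obtain ⟨f, hfm, hf0, hf1⟩ := sepx2 (Q := fun u n y => Q u n y ∧ ∀ k : M, k.1 ∈ n.1 → ¬ Q u k y)
      (by repeat' (first | with_reducible apply ffapp2 hQ | with_reducible apply FF.not | with_reducible apply FF.and | with_reducible apply FF.or | with_reducible apply FF.iff | with_reducible apply FF.ex | with_reducible apply FF.all | with_reducible apply FF.imp | with_reducible apply FF.seg | with_reducible apply FF.opn | with_reducible apply FF.const | with_reducible apply tmem | with_reducible apply teq | with_reducible apply Tm.pair | with_reducible apply Tm.val | with_reducible apply Tm.gnd | with_reducible apply D.not | with_reducible apply D.and | with_reducible apply D.or | with_reducible apply D.iff | with_reducible apply D.ex | with_reducible apply D.all | with_reducible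 apply D.imp | with_reducible apply D.subset | with_reducible apply D.mem | with_reducible apply D.eq | with_reducible apply F.pair | with_reducible apply F.up | with_reducible apply F.succ  | with_reducible exact F.const _ | exact F.var 0 | exact F.var 1 | exact F.var 2 | exact F.var 3 | exact F.var 4 | exact F.var 5 | exact F.var 6 | exact F.var 7 | exact F.var 8 | exact F.var 9 | exact F.var 10 | exact F.var 11 | exact F.var 12 | exact F.var 13)) (mprod κ lam) om x
    have hfd : ∀ u n, pair u n ∈ f → ∃ u' n' : M, u = u'.1 ∧ n = n'.1 ∧ n'.1 ∈ (om : M).1 ∧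
        Q u' n' x ∧ ∀ k : M, k.1 ∈ n'.1 → ¬ Q u' k x := fun u n h => by
      obtain ⟨u', n', e⟩ := hf0 _ h
      obtain ⟨rfl, rfl⟩ := pair_inj.1 e
      exact ⟨u', n', rfl, rfl, ((hf1 _ _).1 h).2⟩
    refine ⟨L, hLm, fun t => ⟨fun ht => ?_, fun ⟨ht, h⟩ => ?_⟩, f, hfm,
      ⟨fun z hz => ?_, fun t ht => ?_⟩, fun u u' n h h' => ?_⟩
    · obtain ⟨j, rfl, h⟩ := (hL t).1 ht
      exact ⟨(hT _ _).2 h, hHt _ _ h⟩
    · obtain ⟨β, j, rfl⟩ := hT0 t ht
      have h1 := (hT _ _).1 ht
      obtain ⟨f1, -, a1⟩ := (hHt _ _ h1).lvW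
      obtain ⟨f2, -, a2⟩ := h.lvW
      obtain rfl : β = γ := Subtype.ext (Lvx.uniq hpo (ko.mem h1.1) h.1 a1 a2)
      exact (hL _).2 ⟨j, rfl, h1⟩
    · obtain ⟨u, n, rfl⟩ := hf0 z hz
      obtain ⟨-, h1, ⟨j, c, rfl, h2, -⟩, -⟩ := (hf1 _ _).1 hz
      exact pair_mem_prod.2 ⟨(hL _).2 ⟨j, rfl, h2⟩, om_eq (M := M) ▸ h1⟩
    · obtain ⟨j, rfl, h⟩ := (hL t).1 ht
      obtain ⟨c, c1, c2⟩ := hY' j h.2.1
      obtain ⟨n, n1, n2⟩ := e1 c c1
      obtain ⟨m, ⟨m1, m2⟩, hmin⟩ := hwf.has_min {k | k.1 ∈ (om : M).1 ∧ Q (mpair γ j) k x}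
        ⟨n, n1, j, c, rfl, h, c2, n2⟩
      refine ⟨m.1, (hf1 (mpair γ j) m).2 ⟨hpm _ _ h, m1, m2, fun k hk h3 =>
        hmin k ⟨om_ord.mem_trans hk m1, h3⟩ hk⟩, fun m' hm' => ?_⟩
      obtain ⟨u', m', e, rfl, a1, a2, a3⟩ := hfd _ _ hm'
      obtain rfl : mpair γ j = u' := Subtype.ext e
      rcases (om_ord.mem a1).mem_trichotomous (om_ord.mem m1) with e | e | e
      · exact absurd e (hmin m' ⟨a1, a2⟩)
      · exact e
      · exact absurd m2 (a3 m e)
    · obtain ⟨_, n1, rfl, rfl, -, ⟨j, c, rfl, a1, a2, a3⟩, -⟩ := hfd _ _ h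
      obtain ⟨_, n2, rfl, e, -, ⟨j', c', rfl, b1, b2, b3⟩, -⟩ := hfd _ _ h'
      obtain rfl : n1 = n2 := Subtype.ext e
      obtain rfl := e2 _ _ _ a3 b3
      rw [uniq _ _ _ a1 b1 (same _ _ _ _ a2 b2)]
  · obtain ⟨i, hi, rfl⟩ := (hB z).1 hz
    refine ⟨fun u hu => ?_, fun u hu v hv => ?_, fun γ hγ => ?_⟩
    · obtain ⟨γ, j, rfl, h, -⟩ := (hbd _ _).1 hu
      exact (hT _ _).2 h
    · obtain ⟨γ, j, rfl, h1, h2⟩ := (hbd _ _).1 hu
      obtain ⟨γ', j', rfl, h1', h2'⟩ := (hbd _ _).1 hv
      rcases (ko.mem h1.1).mem_trichotomous (ko.mem h1'.1) with e | e | e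
      · exact Or.inr (Or.inl ((hR _ _ _ _).2 ⟨h1, h1', e,
          trans _ _ _ _ h2 (symm _ _ _ (down _ _ _ _ h1'.1 e h2'))⟩))
      · obtain rfl : γ = γ' := Subtype.ext e
        rw [uniq _ _ _ h1 h1' (trans _ _ _ _ h2 (symm _ _ _ h2'))]
        exact Or.inl rfl
      · exact Or.inr (Or.inr ((hR _ _ _ _).2 ⟨h1', h1, e,
          trans _ _ _ _ h2' (symm _ _ _ (down _ _ _ _ h1.1 e h2))⟩))
    · obtain ⟨j, h1, h2⟩ := rep (el κ hγ) i hγ hi
      exact ⟨_, (hbd _ _).2 ⟨_, j, rfl, h1, h2⟩, hHt _ _ h1⟩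
  · obtain ⟨i, hi, rfl⟩ := (hg z).1 hz
    exact pair_mem_prod.2 ⟨hi, (hB _).2 ⟨i, hi, rfl⟩⟩
  · refine ⟨b (el lam ha) x, (hg _).2 ⟨el lam ha, ha, rfl⟩, fun z hz => ?_⟩
    obtain ⟨i, -, e, rfl⟩ := hgd _ _ hz
    obtain rfl : el lam ha = i := Subtype.ext e
    rfl
  · obtain ⟨i, hi, rfl, rfl⟩ := hgd _ _ h
    obtain ⟨i', hi', rfl, e⟩ := hgd _ _ h'
    by_contra hne
    obtain ⟨γ, hγ, h1⟩ := diff i i' hi hi' fun e => hne (congrArg Subtype.val e)
    obtain ⟨j, h2, h3⟩ := rep γ i hγ hi
    have h4 := (hbd i _).2 ⟨γ, j, rfl, h2, h3⟩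
    rw [e] at h4
    obtain ⟨γ', j', e', -, h5⟩ := (hbd _ _).1 h4
    obtain ⟨rfl, rfl⟩ := mpair_inj.1 (Subtype.ext e' : mpair γ j = mpair γ' j')
    exact h1 (trans _ _ _ _ (symm _ _ _ h3) h5)

end Pool.Agent.H926Z.KH
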